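import Mathlib
import Pool.Agent.D0H41.SF.Stm

/-!
# Project SF, module PAK: packing in a subspace
-/

set_option autoImplicit false

open MeasureTheory Metric Set Module
open scoped ENNReal

namespace Pool.Agent.D0H87.SF.PAK

open Pool.Agent.D0H41.SF

theorem pack {E : Type} [NormedAddCommGroup E] [NormedSpace ℝ E] [FiniteDimensional ℝ E]
    (s : Finset E) (a b : ℝ) (ha : 0 ≤ a) (hb : 0 < b) (hs : ∀ c ∈ s, ‖c‖ ≤ a)
    (h : ∀ c ∈ s, ∀ d ∈ s, c ≠ d → b ≤ ‖c - d‖) :
    (s.card : ℝ) ≤ (1 + 2 * a / b) ^ finrank ℝ E := by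
  borelize E
  let μ : Measure E := Measure.addHaar
  let δ : ℝ := b / 2
  let ρ : ℝ := a + b / 2
  have δpos : 0 < δ := by positivity
  have ρpos : 0 < ρ := by positivity
  set A := ⋃ c ∈ s, ball (c : E) δ with hA
  have D : Set.Pairwise (s : Set E) (Function.onFun Disjoint fun c => ball (c : E) δ) := by
    rintro c hc d hd hcd
    apply ball_disjoint_ball
    rw [dist_eq_norm]
    have := h c hc d hd hcd
    have h2 : δ + δ = b := by simp only [δ]; ring
    rw [h2]
    exact this
  have A_subset : A ⊆ ball (0 : E) ρ := by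
    refine iUnion₂_subset fun x hx => ?_
    apply ball_subset_ball'
    rw [dist_zero_right]
    have := hs x hx
    simp only [δ, ρ]
    linarith
  have I :
    (s.card : ℝ≥0∞) * ENNReal.ofReal (δ ^ finrank ℝ E) * μ (ball 0 1) ≤
      ENNReal.ofReal (ρ ^ finrank ℝ E) * μ (ball 0 1) :=
    calc
      (s.card : ℝ≥0∞) * ENNReal.ofReal (δ ^ finrank ℝ E) * μ (ball 0 1) = μ A := by
        rw [hA, measure_biUnion_finset D fun c _ => measurableSet_ball]
        simp only [μ.addHaar_ball_of_pos _ δpos]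
        simp only [Finset.sum_const, nsmul_eq_mul, mul_assoc]
      _ ≤ μ (ball (0 : E) ρ) := measure_mono A_subset
      _ = ENNReal.ofReal (ρ ^ finrank ℝ E) * μ (ball 0 1) := by
        simp only [μ.addHaar_ball_of_pos _ ρpos]
  have J : (s.card : ℝ≥0∞) * ENNReal.ofReal (δ ^ finrank ℝ E) ≤ ENNReal.ofReal (ρ ^ finrank ℝ E) :=
    (ENNReal.mul_le_mul_iff_left (measure_ball_pos _ _ zero_lt_one).ne' measure_ball_lt_top.ne).1 I
  have K : (s.card : ℝ) * δ ^ finrank ℝ E ≤ ρ ^ finrank ℝ E := by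
    have := ENNReal.toReal_le_of_le_ofReal (pow_nonneg ρpos.le _) J
    rwa [ENNReal.toReal_mul, ENNReal.toReal_natCast,
      ENNReal.toReal_ofReal (pow_nonneg δpos.le _)] at this
  have L : (1 + 2 * a / b) = ρ / δ := by
    simp only [δ, ρ]
    field_simp
    ring
  rw [L, div_pow, le_div_iff₀ (pow_pos δpos _)]
  exact K

theorem t_PAK : S_PAK := by
  classical
  intro E _ _ W _ S a b ha hb h1 h2
  have h3 := pack (E := W) (S.attach.image (fun x => (⟨x.1, (h1 x.1 x.2).1⟩ : W))) a b ha hb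
    (by
      intro c hc
      rw [Finset.mem_image] at hc
      obtain ⟨x, _, rfl⟩ := hc
      exact (h1 x.1 x.2).2)
    (by
      intro c hc d hd hcd
      rw [Finset.mem_image] at hc hd
      obtain ⟨x, _, rfl⟩ := hc
      obtain ⟨y, _, rfl⟩ := hd
      apply h2 x.1 x.2 y.1 y.2
      intro hxy
      apply hcd
      exact Subtype.ext hxy)
  rwa [Finset.card_image_of_injective, Finset.card_attach] at h3
  intro x y hxy
  exact Subtype.ext (congrArg (fun z : W => (z : E)) hxy)

end Pool.Agent.D0H87.SF.PAK
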