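import Mathlib
import Pool.Agent.D0H41.SF.Stm

/-!
# Project SF, module GM: short polynomials
-/

set_option autoImplicit false

open Polynomial

namespace Pool.Agent.D0H87.SF.GM

open Pool.Agent.D0H41.SF

/-- A polynomial of degree `< k`, nonzero modulo `r`, has at most `k - 1` roots modulo `r`. -/
theorem card_roots_le {k r : ℕ} (hr : r.Prime) (g : Fin k → ℤ) (hg : ∃ j, ¬ (r : ℤ) ∣ g j) :
    ((Finset.range r).filter (fun m : ℕ => (r : ℤ) ∣ ev g (m : ℤ))).card ≤ k - 1 := by
  have : Fact r.Prime := ⟨hr⟩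
  set P : (ZMod r)[X] := ∑ j : Fin k, C ((g j : ℤ) : ZMod r) * X ^ (j : ℕ) with hP
  have hcoef : ∀ j : Fin k, P.coeff (j : ℕ) = ((g j : ℤ) : ZMod r) := by
    intro j
    rw [hP, finsetSum_coeff]
    simp only [coeff_C_mul, coeff_X_pow]
    rw [Finset.sum_eq_single j]
    · simp
    · intro b _ hb
      rw [if_neg (fun h => hb (Fin.ext h.symm)), mul_zero]
    · simp
  have hP0 : P ≠ 0 := by
    obtain ⟨j, hj⟩ := hg
    intro h
    apply hj
    rw [← ZMod.intCast_zmod_eq_zero_iff_dvd, ← hcoef j, h, coeff_zero]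
  have hdeg : P.natDegree ≤ k - 1 := by
    apply natDegree_sum_le_of_forall_le
    intro i _
    refine (natDegree_C_mul_X_pow_le _ _).trans ?_
    have := i.2
    omega
  have heval : ∀ m : ℕ, P.eval (m : ZMod r) = ((ev g (m : ℤ) : ℤ) : ZMod r) := by
    intro m
    rw [hP, eval_finsetSum, ev]
    push_cast
    apply Finset.sum_congr rfl
    intro i _
    simp
  calc ((Finset.range r).filter (fun m : ℕ => (r : ℤ) ∣ ev g (m : ℤ))).card
      ≤ P.roots.toFinset.card := by
        apply Finset.card_le_card_of_injOn (fun m : ℕ => (m : ZMod r))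
        · intro m hm
          rw [Finset.mem_coe, Finset.mem_filter] at hm
          rw [Finset.mem_coe, Multiset.mem_toFinset, mem_roots hP0, IsRoot.def, heval,
            ZMod.intCast_zmod_eq_zero_iff_dvd]
          exact hm.2
        · intro a ha b hb hab
          rw [Finset.mem_coe, Finset.mem_filter, Finset.mem_range] at ha hb
          have h1 := (ZMod.natCast_eq_natCast_iff' a b r).1 hab
          rwa [Nat.mod_eq_of_lt ha.1, Nat.mod_eq_of_lt hb.1] at h1
    _ ≤ P.roots.card := Multiset.toFinset_card_le _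
    _ ≤ P.natDegree := card_roots' P
    _ ≤ k - 1 := hdeg

theorem sum_w (n : ℕ) : ∀ k : ℕ, 2 * k ≤ n →
    ∑ j ∈ Finset.range k, (n - 2 * j) = k * (n + 1 - k) := by
  intro k
  induction k with
  | zero => intro _; simp
  | succ k ih =>
    intro h
    rw [Finset.sum_range_succ, ih (by omega)]
    obtain ⟨d, rfl⟩ := Nat.exists_eq_add_of_le h
    have h1 : 2 * (k + 1) + d + 1 - k = k + d + 3 := by omega
    have h2 : 2 * (k + 1) + d - 2 * k = d + 2 := by omega
    have h3 : 2 * (k + 1) + d + 1 - (k + 1) = k + d + 2 := by omega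
    rw [h1, h2, h3]
    ring

theorem prod_w (k n V : ℕ) (h : 2 * k ≤ n) :
    ∏ j : Fin k, V ^ (n - 2 * (j : ℕ)) = V ^ (k * (n + 1 - k)) := by
  rw [Finset.prod_pow_eq_pow_sum, Fin.sum_univ_eq_sum_range (fun j => n - 2 * j) k, sum_w n k h]

/-- the small box -/
noncomputable def sbox (k n V N : ℕ) : Finset (Fin k → ℤ) :=
  Fintype.piFinset fun j : Fin k => Finset.Icc (-((V ^ (n - 2 * (j : ℕ)) / N : ℕ) : ℤ))
    ((V ^ (n - 2 * (j : ℕ)) / N : ℕ) : ℤ)

/-- the big box -/
noncomputable def bbox (k n V a : ℕ) : Finset (Fin k → ℤ) :=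
  Fintype.piFinset fun j : Fin k => Finset.Icc (0 : ℤ) ((a * V ^ (n - 2 * (j : ℕ)) : ℕ) : ℤ)

theorem card_sbox (k n V N : ℕ) (h : 2 * k ≤ n) (hN : 0 < N) (hV : N ≤ V) :
    N ^ k * (sbox k n V N).card ≤ 3 ^ k * V ^ (k * (n + 1 - k)) := by
  rw [sbox, Fintype.card_piFinset, ← prod_w k n V h]
  have e1 : ∀ x : ℕ, x ^ k = ∏ _j : Fin k, x := by intro x; simp
  rw [e1 N, e1 3, ← Finset.prod_mul_distrib, ← Finset.prod_mul_distrib]
  apply Finset.prod_le_prod'
  intro j _
  have hj := j.2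
  rw [Int.card_Icc]
  set w := V ^ (n - 2 * (j : ℕ)) with hw
  have h1 : ((((w / N : ℕ) : ℤ) + 1 - -((w / N : ℕ) : ℤ)).toNat) = 2 * (w / N) + 1 := by
    omega
  rw [h1]
  have h2 : N ≤ w := by
    rw [hw]
    calc N ≤ V := hV
      _ = V ^ 1 := (pow_one V).symm
      _ ≤ V ^ (n - 2 * (j : ℕ)) := Nat.pow_le_pow_right (by omega) (by omega)
  have h3 : N * (w / N) ≤ w := Nat.mul_div_le w N
  nlinarith

theorem card_bbox (k n V a : ℕ) (h : 2 * k ≤ n) :
    a ^ k * V ^ (k * (n + 1 - k)) ≤ (bbox k n V a).card := by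
  rw [bbox, Fintype.card_piFinset, ← prod_w k n V h]
  have e1 : ∀ x : ℕ, x ^ k = ∏ _j : Fin k, x := by intro x; simp
  rw [e1 a, ← Finset.prod_mul_distrib]
  apply Finset.prod_le_prod'
  intro j _
  rw [Int.card_Icc]
  omega

theorem exp_ge (k n : ℕ) (hk : 2 ≤ k) (h : 2 * k ≤ n) : n ≤ k * (n + 1 - k) := by
  obtain ⟨d, rfl⟩ := Nat.exists_eq_add_of_le h
  have h1 : 2 * k + d + 1 - k = k + d + 1 := by omega
  rw [h1]
  nlinarith

/-- The number of bad `m`. -/
theorem bad_count (k n V r N : ℕ) (hk : 2 ≤ k) (h : 2 * k ≤ n) (hN : N = 6 * k) (hV : N ≤ V)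
    (hr : r.Prime) (hr1 : V ^ (k * (n + 1 - k)) < r) :
    2 * ((Finset.range r).filter (fun m : ℕ => ∃ g ∈ sbox k n V N, g ≠ 0 ∧
      (r : ℤ) ∣ ev g (m : ℤ))).card ≤ r := by
  classical
  have hsub : (Finset.range r).filter (fun m : ℕ => ∃ g ∈ sbox k n V N, g ≠ 0 ∧
      (r : ℤ) ∣ ev g (m : ℤ)) ⊆ ((sbox k n V N).filter (fun g => g ≠ 0)).biUnion
        (fun g => (Finset.range r).filter (fun m : ℕ => (r : ℤ) ∣ ev g (m : ℤ))) := by
    intro m hm
    rw [Finset.mem_filter] at hm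
    obtain ⟨hm1, g, hg, hg0, hgr⟩ := hm
    rw [Finset.mem_biUnion]
    exact ⟨g, Finset.mem_filter.2 ⟨hg, hg0⟩, Finset.mem_filter.2 ⟨hm1, hgr⟩⟩
  have h1 : ((Finset.range r).filter (fun m : ℕ => ∃ g ∈ sbox k n V N, g ≠ 0 ∧
      (r : ℤ) ∣ ev g (m : ℤ))).card ≤ (sbox k n V N).card * (k - 1) := by
    refine (Finset.card_le_card hsub).trans ?_
    refine (Finset.card_biUnion_le_card_mul _ _ (k - 1) ?_).trans ?_
    · intro g hg
      rw [Finset.mem_filter] at hg
      apply card_roots_le hr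
      by_contra hcon
      push Not at hcon
      apply hg.2
      funext j
      have hj := (Fintype.mem_piFinset.1 hg.1) j
      rw [Finset.mem_Icc] at hj
      have hw : V ^ (n - 2 * (j : ℕ)) < r := by
        refine lt_of_le_of_lt ?_ hr1
        apply Nat.pow_le_pow_right (by omega)
        have := exp_ge k n hk h
        omega
      have hw2 : V ^ (n - 2 * (j : ℕ)) / N ≤ V ^ (n - 2 * (j : ℕ)) := Nat.div_le_self _ _
      have habs : |g j| < (r : ℤ) := by
        rw [abs_lt]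
        constructor <;> omega
      exact Int.eq_zero_of_abs_lt_dvd (hcon j) habs
    · exact Nat.mul_le_mul_right _ (Finset.card_filter_le _ _)
  have h2 := card_sbox k n V N h (by omega) hV
  have h3 : (2 * k) ^ k * (sbox k n V N).card ≤ V ^ (k * (n + 1 - k)) := by
    have : N ^ k = 3 ^ k * (2 * k) ^ k := by rw [← mul_pow, hN]; congr 1; ring
    rw [this, mul_assoc] at h2
    exact Nat.le_of_mul_le_mul_left h2 (by positivity)
  have h4 : 2 * k ≤ (2 * k) ^ k := Nat.le_self_pow (by omega) _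
  have h5 : 2 * k * (sbox k n V N).card ≤ V ^ (k * (n + 1 - k)) :=
    (Nat.mul_le_mul_right _ h4).trans h3
  have h6 : (sbox k n V N).card * (k - 1) ≤ (sbox k n V N).card * k :=
    Nat.mul_le_mul_left _ (Nat.sub_le _ _)
  nlinarith

theorem ev_sub {k : ℕ} (g g' : Fin k → ℤ) (m : ℤ) : ev (g - g') m = ev g m - ev g' m := by
  simp only [ev, Pi.sub_apply, sub_mul, Finset.sum_sub_distrib]

/-- Many vectors in the lattice, by the pigeonhole principle. -/
theorem many (k n V r a : ℕ) (m : ℤ) (h : 2 * k ≤ n) (hV : 0 < V)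
    (hr : 0 < r) (hr1 : r ≤ 4 * V ^ (k * (n + 1 - k))) :
    ∃ S : Finset (Fin k → ℤ), a ^ k ≤ 4 * S.card ∧ (∀ g ∈ S, (r : ℤ) ∣ ev g m) ∧
      ∀ g ∈ S, ∀ j : Fin k, |g j| ≤ ((a * V ^ (n - 2 * (j : ℕ)) : ℕ) : ℤ) := by
  classical
  have : NeZero r := ⟨by omega⟩
  rcases Nat.eq_zero_or_pos a with ha | ha
  · subst ha
    rcases Nat.eq_zero_or_pos k with hk | hk
    · subst hk
      refine ⟨{0}, by simp, ?_, ?_⟩
      · intro g hg
        simp [ev]
      · intro g hg j
        exact j.elim0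
    · refine ⟨∅, ?_, by simp, by simp⟩
      rw [zero_pow (by omega)]
      simp
  have hcard := card_bbox k n V a h
  have hex : ∃ c : ZMod r, (bbox k n V a).card ≤
      r * ((bbox k n V a).filter (fun g => ((ev g m : ℤ) : ZMod r) = c)).card := by
    by_contra hcon
    push Not at hcon
    have hsum : (bbox k n V a).card =
        ∑ c : ZMod r, ((bbox k n V a).filter (fun g => ((ev g m : ℤ) : ZMod r) = c)).card :=
      Finset.card_eq_sum_card_fiberwise (fun x _ => Finset.mem_coe.2 (Finset.mem_univ _))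
    have hlt : ∑ c : ZMod r, r * ((bbox k n V a).filter
        (fun g => ((ev g m : ℤ) : ZMod r) = c)).card < ∑ _c : ZMod r, (bbox k n V a).card := by
      apply Finset.sum_lt_sum_of_nonempty
      · exact ⟨0, Finset.mem_univ _⟩
      · intro c _
        exact hcon c
    rw [← Finset.mul_sum, ← hsum, Finset.sum_const, Finset.card_univ, ZMod.card,
      smul_eq_mul] at hlt
    exact lt_irrefl _ hlt
  obtain ⟨c, hc⟩ := hex
  set F := (bbox k n V a).filter (fun g => ((ev g m : ℤ) : ZMod r) = c) with hF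
  have hFc : a ^ k ≤ 4 * F.card := by
    have h1 : a ^ k * V ^ (k * (n + 1 - k)) ≤ 4 * V ^ (k * (n + 1 - k)) * F.card :=
      (hcard.trans hc).trans (Nat.mul_le_mul_right _ hr1)
    have h2 : a ^ k * V ^ (k * (n + 1 - k)) ≤ (4 * F.card) * V ^ (k * (n + 1 - k)) := by
      calc _ ≤ _ := h1
        _ = _ := by ring
    exact Nat.le_of_mul_le_mul_right h2 (by positivity)
  have hne : F.Nonempty := by
    rw [← Finset.card_pos]
    have : 0 < a ^ k := by positivity
    omega
  obtain ⟨g0, hg0⟩ := hne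
  refine ⟨F.image (fun g => g - g0), ?_, ?_, ?_⟩
  · rw [Finset.card_image_of_injective _ (sub_left_injective)]
    exact hFc
  · intro g hg
    rw [Finset.mem_image] at hg
    obtain ⟨g1, hg1, rfl⟩ := hg
    rw [hF, Finset.mem_filter] at hg1 hg0
    rw [ev_sub, ← ZMod.intCast_zmod_eq_zero_iff_dvd]
    push_cast
    rw [hg1.2, hg0.2, sub_self]
  · intro g hg j
    rw [Finset.mem_image] at hg
    obtain ⟨g1, hg1, rfl⟩ := hg
    rw [hF, Finset.mem_filter] at hg1 hg0
    have h1 := Finset.mem_Icc.1 ((Fintype.mem_piFinset.1 hg1.1) j)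
    have h0 := Finset.mem_Icc.1 ((Fintype.mem_piFinset.1 hg0.1) j)
    rw [Pi.sub_apply, abs_le]
    constructor <;> omega

/-- The scaling map. -/
noncomputable def scl (k n V : ℕ) : (Fin k → ℚ) →ₗ[ℚ] (Fin k → ℝ) where
  toFun x j := ((x j : ℚ) : ℝ) / (V : ℝ) ^ (n - 2 * (j : ℕ))
  map_add' x y := by
    funext j
    simp only [Pi.add_apply]
    push_cast
    ring
  map_smul' c x := by
    funext j
    simp only [Pi.smul_apply, smul_eq_mul, RingHom.id_apply, Rat.smul_def]
    push_cast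
    ring

theorem t_GM (hPAK : S_PAK) : S_GM := by
  classical
  intro n k hk hn
  set N : ℕ := 6 * k with hN
  set a : ℕ := 4 * (3 * N) ^ (k - 1) + 1 with ha
  refine ⟨(a : ℝ), by positivity, N, ?_⟩
  intro V r hV hr hr1 hr2
  have hV0 : 0 < V := by omega
  set bad := (Finset.range r).filter (fun m : ℕ => ∃ g ∈ sbox k n V N, g ≠ 0 ∧
      (r : ℤ) ∣ ev g (m : ℤ)) with hbad
  have hb := bad_count k n V r N hk hn hN hV hr hr1
  refine ⟨Finset.range r \ bad, Finset.sdiff_subset, ?_, ?_⟩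
  · rw [Finset.card_sdiff_of_subset (Finset.filter_subset _ _), Finset.card_range]
    omega
  intro m hm
  rw [Finset.mem_sdiff] at hm
  have hgood : ∀ g : Fin k → ℤ, (r : ℤ) ∣ ev g (m : ℤ) → g ∈ sbox k n V N → g = 0 := by
    intro g hg1 hg2
    by_contra hg0
    exact hm.2 (Finset.mem_filter.2 ⟨hm.1, g, hg2, hg0, hg1⟩)
  obtain ⟨S, hS1, hS2, hS3⟩ := many k n V r a (m : ℤ) hn hV0 hr.pos hr2
  -- the scaled set
  set f : (Fin k → ℤ) → (Fin k → ℝ) := fun g => scl k n V (fun j => ((g j : ℤ) : ℚ)) with hf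
  have hfa : ∀ g j, f g j = ((g j : ℤ) : ℝ) / (V : ℝ) ^ (n - 2 * (j : ℕ)) := by
    intro g j
    simp [hf, scl]
  have hwpos : ∀ j : Fin k, (0 : ℝ) < (V : ℝ) ^ (n - 2 * (j : ℕ)) := by
    intro j
    have : (0 : ℝ) < (V : ℝ) := by exact_mod_cast hV0
    positivity
  set T : Finset (Fin k → ℝ) := S.image f with hT
  have hinj : Function.Injective f := by
    intro g g' hgg
    funext j
    have h1 := congrFun hgg j
    rw [hfa, hfa, div_left_inj' (hwpos j).ne'] at h1
    exact_mod_cast h1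
  have hTcard : T.card = S.card := Finset.card_image_of_injective _ hinj
  have hspan : Submodule.span ℝ (T : Set (Fin k → ℝ)) = ⊤ := by
    by_contra hne
    set W := Submodule.span ℝ (T : Set (Fin k → ℝ)) with hW
    have hrank : Module.finrank ℝ W < k := by
      have := Submodule.finrank_lt (s := W) hne
      simpa using this
    have hpk := hPAK (Fin k → ℝ) W T a (1 / N) (by positivity) (by positivity) ?_ ?_
    · have h1 : (1 : ℝ) ≤ 1 + 2 * (a : ℝ) / (1 / (N : ℝ)) := by
        have : (0 : ℝ) ≤ 2 * (a : ℝ) / (1 / (N : ℝ)) := by positivity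
        linarith
      have h2 : (T.card : ℝ) ≤ (1 + 2 * (a : ℝ) / (1 / (N : ℝ))) ^ (k - 1) :=
        hpk.trans (pow_le_pow_right₀ h1 (by omega))
      have h3 : 1 + 2 * (a : ℝ) / (1 / (N : ℝ)) ≤ (a : ℝ) * (3 * N) := by
        have ha1 : (1 : ℝ) ≤ a := by
          rw [ha]
          push_cast
          have : (0 : ℝ) ≤ 4 * (3 * (N : ℝ)) ^ (k - 1) := by positivity
          linarith
        have hN1 : (1 : ℝ) ≤ (N : ℝ) := by
          have : 1 ≤ N := by omega
          exact_mod_cast this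
        have : 2 * (a : ℝ) / (1 / (N : ℝ)) = 2 * a * N := by
          field_simp
        rw [this]
        nlinarith
      have h4 : (T.card : ℝ) ≤ ((a : ℝ) * (3 * N)) ^ (k - 1) :=
        h2.trans (pow_le_pow_left₀ (by linarith) h3 _)
      rw [mul_pow] at h4
      have h5 : ((a : ℝ)) ^ k ≤ 4 * (T.card : ℝ) := by
        rw [hTcard]
        exact_mod_cast hS1
      have h6 : (a : ℝ) ^ k = (a : ℝ) ^ (k - 1) * a := by
        rw [← pow_succ]
        congr 1
        omega
      have h7 : (a : ℝ) = 4 * (3 * (N : ℝ)) ^ (k - 1) + 1 := by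
        rw [ha]
        push_cast
        ring
      have h8 : (0 : ℝ) < (a : ℝ) ^ (k - 1) := by
        have : (0 : ℝ) < a := by rw [h7]; positivity
        positivity
      have h9 : (a : ℝ) ^ (k - 1) * a ≤ 4 * ((a : ℝ) ^ (k - 1) * (3 * (N : ℝ)) ^ (k - 1)) := by
        rw [← h6]
        linarith
      have h10 : (a : ℝ) ≤ 4 * (3 * (N : ℝ)) ^ (k - 1) := by
        have : (a : ℝ) ^ (k - 1) * a ≤ (a : ℝ) ^ (k - 1) * (4 * (3 * (N : ℝ)) ^ (k - 1)) := by
          linarith
        exact le_of_mul_le_mul_left this h8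
      linarith
    · intro x hx
      refine ⟨Submodule.subset_span hx, ?_⟩
      rw [hT, Finset.mem_image] at hx
      obtain ⟨g, hg, rfl⟩ := hx
      rw [pi_norm_le_iff_of_nonneg (by positivity)]
      intro j
      rw [hfa, Real.norm_eq_abs, abs_div, abs_of_pos (hwpos j), div_le_iff₀ (hwpos j)]
      have := hS3 g hg j
      have h2 : |((g j : ℤ) : ℝ)| ≤ (((a * V ^ (n - 2 * (j : ℕ)) : ℕ) : ℤ) : ℝ) := by
        rw [← Int.cast_abs]
        exact_mod_cast this
      push_cast at h2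
      exact h2
    · intro x hx y hy hxy
      rw [hT, Finset.mem_image] at hx hy
      obtain ⟨g, hg, rfl⟩ := hx
      obtain ⟨g', hg', rfl⟩ := hy
      have hgg : g - g' ≠ 0 := by
        intro h0
        apply hxy
        rw [sub_eq_zero.1 h0]
      have hnb : g - g' ∉ sbox k n V N := by
        intro hmem
        apply hgg
        apply hgood _ _ hmem
        rw [ev_sub]
        exact dvd_sub (hS2 g hg) (hS2 g' hg')
      rw [sbox, Fintype.mem_piFinset] at hnb
      push Not at hnb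
      obtain ⟨j, hj⟩ := hnb
      rw [Finset.mem_Icc, ← abs_le, not_le, Pi.sub_apply] at hj
      have h1 : V ^ (n - 2 * (j : ℕ)) < N * (V ^ (n - 2 * (j : ℕ)) / N + 1) :=
        Nat.lt_mul_div_succ _ (by omega)
      have h2 : ((V ^ (n - 2 * (j : ℕ)) / N : ℕ) : ℤ) + 1 ≤ |g j - g' j| := hj
      have h3 : (((V ^ (n - 2 * (j : ℕ)) / N + 1 : ℕ) : ℤ) : ℝ) ≤ |((g j - g' j : ℤ) : ℝ)| := by
        rw [← Int.cast_abs]
        exact_mod_cast h2
      have h4 : (V : ℝ) ^ (n - 2 * (j : ℕ)) ≤ (N : ℝ) *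
          (((V ^ (n - 2 * (j : ℕ)) / N + 1 : ℕ) : ℤ) : ℝ) := by
        exact_mod_cast h1.le
      have h5 : (1 : ℝ) / N ≤ ‖(f g - f g') j‖ := by
        rw [Pi.sub_apply, hfa, hfa, ← sub_div, Real.norm_eq_abs, abs_div, abs_of_pos (hwpos j),
          div_le_div_iff₀ (by positivity) (hwpos j), one_mul]
        push_cast at h3 h4 ⊢
        nlinarith
      exact h5.trans (norm_le_pi_norm _ j)
  -- choose independent vectors
  obtain ⟨b, hbT, hbspan, hbli⟩ := exists_linearIndependent ℝ (T : Set (Fin k → ℝ))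
  have hbas : ⊤ ≤ Submodule.span ℝ (Set.range (Subtype.val : b → (Fin k → ℝ))) := by
    rw [Subtype.range_coe, hbspan, hspan]
  let B : Module.Basis b ℝ (Fin k → ℝ) := Module.Basis.mk hbli hbas
  let eqv : Fin k ≃ b := (Pi.basisFun ℝ (Fin k)).indexEquiv B
  have hmem : ∀ i : Fin k, ∃ g ∈ S, f g = (eqv i : Fin k → ℝ) := by
    intro i
    have h1 := hbT (eqv i).2
    rw [hT, Finset.mem_coe, Finset.mem_image] at h1
    exact h1
  choose g hgS hgf using hmem
  refine ⟨g, ?_, ?_, ?_⟩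
  · have h1 : LinearIndependent ℝ (fun i : Fin k => (eqv i : Fin k → ℝ)) :=
      hbli.comp eqv eqv.injective
    have h2 : LinearIndependent ℚ (fun i : Fin k => (eqv i : Fin k → ℝ)) := by
      apply LinearIndependent.restrict_scalars ?_ h1
      intro x y hxy
      simp only [Rat.smul_def, mul_one] at hxy
      exact_mod_cast hxy
    apply LinearIndependent.of_comp (scl k n V)
    have h3 : (scl k n V) ∘ (fun i j => ((g i j : ℤ) : ℚ)) =
        fun i : Fin k => (eqv i : Fin k → ℝ) := by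
      funext i
      exact hgf i
    rw [h3]
    exact h2
  · intro i
    exact hS2 _ (hgS i)
  · intro i j
    have := hS3 _ (hgS i) j
    have h2 : |((g i j : ℤ) : ℝ)| ≤ (((a * V ^ (n - 2 * (j : ℕ)) : ℕ) : ℤ) : ℝ) := by
      rw [← Int.cast_abs]
      exact_mod_cast this
    push_cast at h2
    exact h2

end Pool.Agent.D0H87.SF.GM
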