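import Mathlib
import Pool.Agent.D0H41.SF.Stm

/-!
# Project SF, module CO: the tails of degree `≤ 2k - 2` in a given class
-/

set_option autoImplicit false

open Polynomial

namespace Pool.Agent.D0H87.SF.CO

open Pool.Agent.D0H41.SF

/-- the polynomial of a vector -/
noncomputable def P {D : ℕ} (b : Fin D → ℤ) : ℤ[X] := ∑ i : Fin D, C (b i) * X ^ (i : ℕ)

theorem P_eval {D : ℕ} (b : Fin D → ℤ) (m : ℤ) : (P b).eval m = ev b m := by
  simp [P, ev, eval_finsetSum]

theorem P_deriv {D : ℕ} (b : Fin D → ℤ) (m : ℤ) : (derivative (P b)).eval m = dv b m := by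
  rw [P, dv, derivative_sum, eval_finsetSum]
  apply Finset.sum_congr rfl
  intro i _
  rw [derivative_C_mul_X_pow, eval_C_mul, eval_pow, eval_X]
  push_cast
  ring

theorem P_coeff {D : ℕ} (b : Fin D → ℤ) (l : Fin D) : (P b).coeff (l : ℕ) = b l := by
  rw [P, finsetSum_coeff]
  simp only [coeff_C_mul, coeff_X_pow]
  rw [Finset.sum_eq_single l]
  · simp
  · intro i _ hi
    rw [if_neg (fun h => hi (Fin.ext h.symm)), mul_zero]
  · simp

theorem P_coeff_ge {D : ℕ} (b : Fin D → ℤ) (l : ℕ) (hl : D ≤ l) : (P b).coeff l = 0 := by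
  rw [P, finsetSum_coeff]
  simp only [coeff_C_mul, coeff_X_pow]
  apply Finset.sum_eq_zero
  intro i _
  have := i.2
  rw [if_neg (by omega), mul_zero]

theorem P_of {D : ℕ} (p : ℤ[X]) (hp : ∀ l, D ≤ l → p.coeff l = 0) :
    P (fun l : Fin D => p.coeff (l : ℕ)) = p := by
  ext l
  by_cases hl : l < D
  · exact P_coeff (fun l : Fin D => p.coeff (l : ℕ)) ⟨l, hl⟩
  · rw [P_coeff_ge _ _ (by omega), hp l (by omega)]

theorem ev_add {D : ℕ} (b b' : Fin D → ℤ) (m : ℤ) : ev (b + b') m = ev b m + ev b' m := by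
  simp only [ev, Pi.add_apply, add_mul, Finset.sum_add_distrib]

theorem dv_add {D : ℕ} (b b' : Fin D → ℤ) (m : ℤ) : dv (b + b') m = dv b m + dv b' m := by
  simp only [dv, Pi.add_apply, mul_add, add_mul, Finset.sum_add_distrib]

theorem ev_smul {D : ℕ} (c : ℤ) (b : Fin D → ℤ) (m : ℤ) : ev (c • b) m = c * ev b m := by
  simp only [ev, Pi.smul_apply, smul_eq_mul, Finset.mul_sum, mul_assoc]

theorem dv_smul {D : ℕ} (c : ℤ) (b : Fin D → ℤ) (m : ℤ) : dv (c • b) m = c * dv b m := by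
  simp only [dv, Pi.smul_apply, smul_eq_mul, Finset.mul_sum]
  apply Finset.sum_congr rfl
  intro i _
  ring

/-- the lattice -/
def Lam (D r : ℕ) (m : ℤ) : Submodule ℤ (Fin D → ℤ) where
  carrier := {b | (r : ℤ) ^ 2 ∣ ev b m ∧ (r : ℤ) ∣ dv b m}
  add_mem' := by
    intro a b ha hb
    exact ⟨by rw [ev_add]; exact dvd_add ha.1 hb.1, by rw [dv_add]; exact dvd_add ha.2 hb.2⟩
  zero_mem' := by
    constructor <;> simp [ev, dv]
  smul_mem' := by
    intro c b hb
    exact ⟨by rw [ev_smul]; exact Dvd.dvd.mul_left hb.1 _,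
      by rw [dv_smul]; exact Dvd.dvd.mul_left hb.2 _⟩

theorem mem_Lam {D r : ℕ} {m : ℤ} {b : Fin D → ℤ} :
    b ∈ Lam D r m ↔ (r : ℤ) ^ 2 ∣ ev b m ∧ (r : ℤ) ∣ dv b m := Iff.rfl

/-- the product of two vectors -/
noncomputable def pr {k : ℕ} (u v : Fin k → ℤ) : Fin (2 * k - 1) → ℤ :=
  fun l => (P u * P v).coeff (l : ℕ)

theorem P_pr {k : ℕ} (hk : 2 ≤ k) (u v : Fin k → ℤ) : P (pr u v) = P u * P v := by
  apply P_of
  intro l hl
  rw [coeff_mul]
  apply Finset.sum_eq_zero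
  intro x hx
  rw [Finset.HasAntidiagonal.mem_antidiagonal] at hx
  by_cases h : k ≤ x.1
  · rw [P_coeff_ge u _ h, zero_mul]
  · rw [P_coeff_ge v x.2 (by omega), mul_zero]

theorem pr_mem {k r : ℕ} (hk : 2 ≤ k) (m : ℤ) (u v : Fin k → ℤ) (hu : (r : ℤ) ∣ ev u m)
    (hv : (r : ℤ) ∣ ev v m) : pr u v ∈ Lam (2 * k - 1) r m := by
  rw [mem_Lam, ← P_eval, ← P_deriv, P_pr hk, derivative_mul, eval_mul, eval_add, eval_mul,
    eval_mul, P_eval, P_eval, sq]
  exact ⟨mul_dvd_mul hu hv, dvd_add (Dvd.dvd.mul_left hv _) (Dvd.dvd.mul_right hu _)⟩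

theorem pr_le {k n V : ℕ} (hn : 2 * k ≤ n) (K : ℝ) (u v : Fin k → ℤ)
    (hu : ∀ j, |((u j : ℤ) : ℝ)| ≤ K * (V : ℝ) ^ (n - 2 * (j : ℕ)))
    (hv : ∀ j, |((v j : ℤ) : ℝ)| ≤ K * (V : ℝ) ^ (n - 2 * (j : ℕ))) (l : Fin (2 * k - 1)) :
    |((pr u v l : ℤ) : ℝ)| ≤ 2 * k * K ^ 2 * (V : ℝ) ^ (2 * (n - (l : ℕ))) := by
  have hl := l.2
  rw [pr, coeff_mul]
  push_cast
  refine (Finset.abs_sum_le_sum_abs _ _).trans ?_
  have hterm : ∀ x ∈ Finset.HasAntidiagonal.antidiagonal (l : ℕ),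
      |(((P u).coeff x.1 : ℤ) : ℝ) * (((P v).coeff x.2 : ℤ) : ℝ)| ≤
        K ^ 2 * (V : ℝ) ^ (2 * (n - (l : ℕ))) := by
    intro x hx
    rw [Finset.HasAntidiagonal.mem_antidiagonal] at hx
    have hpos : 0 ≤ K ^ 2 * (V : ℝ) ^ (2 * (n - (l : ℕ))) := by positivity
    by_cases h1 : k ≤ x.1
    · rw [P_coeff_ge u _ h1]
      simpa using hpos
    by_cases h2 : k ≤ x.2
    · rw [P_coeff_ge v _ h2]
      simpa using hpos
    have e1 : (P u).coeff x.1 = u ⟨x.1, by omega⟩ := P_coeff u ⟨x.1, by omega⟩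
    have e2 : (P v).coeff x.2 = v ⟨x.2, by omega⟩ := P_coeff v ⟨x.2, by omega⟩
    rw [e1, e2, abs_mul]
    have hA := hu ⟨x.1, by omega⟩
    have hB := hv ⟨x.2, by omega⟩
    calc _ ≤ (K * (V : ℝ) ^ (n - 2 * x.1)) * (K * (V : ℝ) ^ (n - 2 * x.2)) :=
          mul_le_mul hA hB (abs_nonneg _) ((abs_nonneg _).trans hA)
      _ = K ^ 2 * ((V : ℝ) ^ (n - 2 * x.1) * (V : ℝ) ^ (n - 2 * x.2)) := by ring
      _ = K ^ 2 * (V : ℝ) ^ (2 * (n - (l : ℕ))) := by
          rw [← pow_add]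
          congr 2
          omega
  refine (Finset.sum_le_card_nsmul _ _ _ hterm).trans ?_
  rw [Finset.Nat.card_antidiagonal, nsmul_eq_mul]
  have h1 : (((l : ℕ) + 1 : ℕ) : ℝ) ≤ 2 * k := by
    have : (l : ℕ) + 1 ≤ 2 * k := by omega
    exact_mod_cast this
  calc (((l : ℕ) + 1 : ℕ) : ℝ) * (K ^ 2 * (V : ℝ) ^ (2 * (n - (l : ℕ))))
      ≤ (2 * k) * (K ^ 2 * (V : ℝ) ^ (2 * (n - (l : ℕ)))) :=
        mul_le_mul_of_nonneg_right h1 (by positivity)
    _ = _ := by ring

/-- The products span. -/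
theorem pr_span {k : ℕ} (hk : 2 ≤ k) (g : Fin k → Fin k → ℤ)
    (hg : LinearIndependent ℚ (fun i j => ((g i j : ℤ) : ℚ))) (x : Fin (2 * k - 1) → ℤ) :
    ∃ c : Fin k → Fin k → ℚ, ∀ l, ((x l : ℤ) : ℚ) =
      ∑ i, ∑ j, c i j * ((pr (g i) (g j) l : ℤ) : ℚ) := by
  classical
  set G : Fin k → ℚ[X] := fun a => (P (g a)).map (Int.castRingHom ℚ) with hG
  have hspan : Submodule.span ℚ (Set.range (fun i j => ((g i j : ℤ) : ℚ))) = ⊤ :=
    hg.span_eq_top_of_card_eq_finrank' (by simp)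
  -- powers of `X` of degree less than `k`
  have h1 : ∀ i : ℕ, i < k → ∃ α : Fin k → ℚ, (X : ℚ[X]) ^ i = ∑ a, C (α a) * G a := by
    intro i hi
    have hm : (Pi.single (⟨i, hi⟩ : Fin k) (1 : ℚ)) ∈
        Submodule.span ℚ (Set.range (fun i j => ((g i j : ℤ) : ℚ))) := by
      rw [hspan]; trivial
    rw [Submodule.mem_span_range_iff_exists_fun] at hm
    obtain ⟨α, hα⟩ := hm
    refine ⟨α, ?_⟩
    ext l
    rw [finsetSum_coeff]
    simp only [coeff_C_mul, hG, coeff_map, eq_intCast, coeff_X_pow]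
    by_cases hl : l < k
    · have h2 := congrFun hα ⟨l, hl⟩
      rw [Finset.sum_apply] at h2
      simp only [Pi.smul_apply, smul_eq_mul] at h2
      have h3 : ∀ a, (((P (g a)).coeff l : ℤ) : ℚ) = ((g a ⟨l, hl⟩ : ℤ) : ℚ) := by
        intro a
        rw [show (P (g a)).coeff l = g a ⟨l, hl⟩ from P_coeff (g a) ⟨l, hl⟩]
      simp only [h3]
      rw [h2, Pi.single_apply]
      simp only [Fin.mk.injEq]
    · rw [if_neg (by omega)]
      symm
      apply Finset.sum_eq_zero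
      intro a _
      rw [P_coeff_ge _ _ (by omega)]
      simp
  have h2 : ∀ l : Fin (2 * k - 1), ∃ β : Fin k → Fin k → ℚ,
      (X : ℚ[X]) ^ (l : ℕ) = ∑ a, ∑ b, C (β a b) * (G a * G b) := by
    intro l
    have hl := l.2
    obtain ⟨α, hα⟩ := h1 (min (l : ℕ) (k - 1)) (by omega)
    obtain ⟨α', hα'⟩ := h1 ((l : ℕ) - min (l : ℕ) (k - 1)) (by omega)
    refine ⟨fun a b => α a * α' b, ?_⟩
    have h3 : (l : ℕ) = min (l : ℕ) (k - 1) + ((l : ℕ) - min (l : ℕ) (k - 1)) := by omega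
    rw [h3, pow_add, hα, hα', Finset.sum_mul_sum]
    apply Finset.sum_congr rfl
    intro a _
    apply Finset.sum_congr rfl
    intro b _
    rw [C_mul]
    ring
  choose β hβ using h2
  refine ⟨fun a b => ∑ l, (x l : ℚ) * β l a b, fun l' => ?_⟩
  have h3 : ∀ l : Fin (2 * k - 1), ((X : ℚ[X]) ^ (l : ℕ)).coeff (l' : ℕ) =
      ∑ a, ∑ b, β l a b * ((pr (g a) (g b) l' : ℤ) : ℚ) := by
    intro l
    rw [hβ l, finsetSum_coeff]
    apply Finset.sum_congr rfl
    intro a _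
    rw [finsetSum_coeff]
    apply Finset.sum_congr rfl
    intro b _
    rw [coeff_C_mul]
    congr 1
    simp only [hG]
    rw [← Polynomial.map_mul, coeff_map, pr]
    simp
  have h4 : ((x l' : ℤ) : ℚ) = ∑ l, (x l : ℚ) * ((X : ℚ[X]) ^ (l : ℕ)).coeff (l' : ℕ) := by
    rw [Finset.sum_eq_single l']
    · simp
    · intro l _ hl
      rw [coeff_X_pow, if_neg (fun h => hl (Fin.ext h.symm)), mul_zero]
    · simp
  rw [h4]
  simp only [h3]
  simp only [Finset.mul_sum, Finset.sum_mul]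
  rw [Finset.sum_comm]
  apply Finset.sum_congr rfl
  intro a _
  rw [Finset.sum_comm]
  apply Finset.sum_congr rfl
  intro b _
  apply Finset.sum_congr rfl
  intro l _
  ring

/-- Every vector is congruent to a small one. -/
theorem reduce {k n V r : ℕ} {K : ℝ} {m : ℤ} (hk : 2 ≤ k) (hn : 2 * k ≤ n)
    (hS : Short k n V r K m) (x : Fin (2 * k - 1) → ℤ) :
    ∃ y : Fin (2 * k - 1) → ℤ, y - x ∈ Lam (2 * k - 1) r m ∧
      ∀ l, |((y l : ℤ) : ℝ)| ≤ 2 * k ^ 3 * K ^ 2 * (V : ℝ) ^ (2 * (n - (l : ℕ))) := by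
  obtain ⟨g, hg, hgr, hgb⟩ := hS
  obtain ⟨c, hc⟩ := pr_span hk g hg x
  refine ⟨x - ∑ i, ∑ j, (⌊c i j⌋ : ℤ) • pr (g i) (g j), ?_, ?_⟩
  · rw [sub_sub_cancel_left]
    apply Submodule.neg_mem
    apply Submodule.sum_mem
    intro i _
    apply Submodule.sum_mem
    intro j _
    apply Submodule.smul_mem
    exact pr_mem hk m _ _ (hgr i) (hgr j)
  · intro l
    have h1 : (((x - ∑ i, ∑ j, (⌊c i j⌋ : ℤ) • pr (g i) (g j)) l : ℤ) : ℚ) =
        ∑ i, ∑ j, Int.fract (c i j) * ((pr (g i) (g j) l : ℤ) : ℚ) := by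
      rw [Pi.sub_apply, Finset.sum_apply]
      push_cast
      rw [hc l, ← Finset.sum_sub_distrib]
      apply Finset.sum_congr rfl
      intro i _
      rw [Finset.sum_apply]
      push_cast
      rw [← Finset.sum_sub_distrib]
      apply Finset.sum_congr rfl
      intro j _
      rw [Pi.smul_apply, smul_eq_mul]
      push_cast
      rw [← sub_mul]
      rfl
    have h2 : (((x - ∑ i, ∑ j, (⌊c i j⌋ : ℤ) • pr (g i) (g j)) l : ℤ) : ℝ) =
        ∑ i, ∑ j, ((Int.fract (c i j) : ℚ) : ℝ) * ((pr (g i) (g j) l : ℤ) : ℝ) := by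
      have := congrArg (fun q : ℚ => (q : ℝ)) h1
      push_cast at this ⊢
      exact this
    rw [h2]
    have h3 : ∀ i j, |((Int.fract (c i j) : ℚ) : ℝ) * ((pr (g i) (g j) l : ℤ) : ℝ)| ≤
        2 * k * K ^ 2 * (V : ℝ) ^ (2 * (n - (l : ℕ))) := by
      intro i j
      rw [abs_mul]
      have h4 : |((Int.fract (c i j) : ℚ) : ℝ)| ≤ 1 := by
        rw [abs_le]
        constructor
        · have : (0 : ℚ) ≤ Int.fract (c i j) := Int.fract_nonneg _
          have h5 : (0 : ℝ) ≤ ((Int.fract (c i j) : ℚ) : ℝ) := by exact_mod_cast this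
          linarith
        · have : Int.fract (c i j) ≤ 1 := (Int.fract_lt_one _).le
          exact_mod_cast this
      have h5 := pr_le hn K (g i) (g j) (hgb i) (hgb j) l
      calc _ ≤ 1 * |((pr (g i) (g j) l : ℤ) : ℝ)| :=
            mul_le_mul_of_nonneg_right h4 (abs_nonneg _)
        _ ≤ _ := by rw [one_mul]; exact h5
    calc |∑ i, ∑ j, ((Int.fract (c i j) : ℚ) : ℝ) * ((pr (g i) (g j) l : ℤ) : ℝ)|
        ≤ ∑ i, |∑ j, ((Int.fract (c i j) : ℚ) : ℝ) * ((pr (g i) (g j) l : ℤ) : ℝ)| :=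
          Finset.abs_sum_le_sum_abs _ _
      _ ≤ ∑ _i : Fin k, ∑ _j : Fin k, 2 * k * K ^ 2 * (V : ℝ) ^ (2 * (n - (l : ℕ))) := by
          apply Finset.sum_le_sum
          intro i _
          refine (Finset.abs_sum_le_sum_abs _ _).trans ?_
          apply Finset.sum_le_sum
          intro j _
          exact h3 i j
      _ = 2 * k ^ 3 * K ^ 2 * (V : ℝ) ^ (2 * (n - (l : ℕ))) := by
          simp only [Finset.sum_const, Finset.card_univ, Fintype.card_fin, nsmul_eq_mul]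
          ring

theorem sum_e (n : ℕ) : ∀ D : ℕ, D ≤ n →
    ∑ j ∈ Finset.range D, 2 * (n - j) = D * (2 * n + 1 - D) := by
  intro D
  induction D with
  | zero => intro _; simp
  | succ D ih =>
    intro h
    rw [Finset.sum_range_succ, ih (by omega)]
    obtain ⟨d, rfl⟩ := Nat.exists_eq_add_of_le h
    have h1 : 2 * (D + 1 + d) + 1 - D = D + 2 * d + 3 := by omega
    have h2 : D + 1 + d - D = d + 1 := by omega
    have h3 : 2 * (D + 1 + d) + 1 - (D + 1) = D + 2 * d + 2 := by omega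
    rw [h1, h2, h3]
    ring

theorem prod_e (k n V : ℕ) (hk : 2 ≤ k) (h : 2 * k ≤ n) :
    ∏ j : Fin (2 * k - 1), V ^ (2 * (n - (j : ℕ))) = V ^ ((4 * k - 2) * (n + 1 - k)) := by
  rw [Finset.prod_pow_eq_pow_sum, Fin.sum_univ_eq_sum_range (fun j => 2 * (n - j)) (2 * k - 1),
    sum_e n _ (by omega)]
  congr 1
  obtain ⟨d, rfl⟩ := Nat.exists_eq_add_of_le h
  obtain ⟨k', rfl⟩ := Nat.exists_eq_add_of_le hk
  have h1 : 2 * (2 + k') - 1 = 2 * k' + 3 := by omega
  have h2 : 2 * (2 * (2 + k') + d) + 1 - (2 * k' + 3) = 2 * k' + 2 * d + 6 := by omega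
  have h3 : 4 * (2 + k') - 2 = 4 * k' + 6 := by omega
  have h4 : 2 * (2 + k') + d + 1 - (2 + k') = k' + d + 3 := by omega
  rw [h1, h2, h3, h4]
  ring

/-- the box -/
noncomputable def box (k n V : ℕ) : Finset (Fin (2 * k - 1) → ℤ) :=
  Fintype.piFinset fun j : Fin (2 * k - 1) =>
    Finset.Icc (0 : ℤ) ((V ^ (2 * (n - (j : ℕ))) : ℕ) : ℤ)

theorem card_box (k n V : ℕ) (hk : 2 ≤ k) (h : 2 * k ≤ n) :
    V ^ ((4 * k - 2) * (n + 1 - k)) ≤ (box k n V).card := by
  rw [box, Fintype.card_piFinset, ← prod_e k n V hk h]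
  apply Finset.prod_le_prod'
  intro j _
  rw [Int.card_Icc]
  omega

theorem t_CO : S_CO := by
  classical
  intro n k hk hn K hK
  refine ⟨2 * k ^ 3 * K ^ 2 + 1, by positivity, ?_⟩
  intro V r m hV hr hrV hS s t
  have hr0 : 0 < r := by omega
  have : NeZero r := ⟨by omega⟩
  have : NeZero (r ^ 2) := ⟨by positivity⟩
  set φ : (Fin (2 * k - 1) → ℤ) → ZMod (r ^ 2) × ZMod r :=
    fun b => (((ev b m : ℤ) : ZMod (r ^ 2)), ((dv b m : ℤ) : ZMod r)) with hφ
  have hex : ∃ c : ZMod (r ^ 2) × ZMod r, (box k n V).card ≤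
      r ^ 3 * ((box k n V).filter (fun b => φ b = c)).card := by
    by_contra hcon
    push Not at hcon
    have hsum : (box k n V).card =
        ∑ c : ZMod (r ^ 2) × ZMod r, ((box k n V).filter (fun b => φ b = c)).card :=
      Finset.card_eq_sum_card_fiberwise (fun x _ => Finset.mem_coe.2 (Finset.mem_univ _))
    have hlt : ∑ c : ZMod (r ^ 2) × ZMod r, r ^ 3 * ((box k n V).filter
        (fun b => φ b = c)).card < ∑ _c : ZMod (r ^ 2) × ZMod r, (box k n V).card := by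
      apply Finset.sum_lt_sum_of_nonempty
      · exact ⟨0, Finset.mem_univ _⟩
      · intro c _
        exact hcon c
    rw [← Finset.mul_sum, ← hsum, Finset.sum_const, Finset.card_univ, Fintype.card_prod,
      ZMod.card, ZMod.card, smul_eq_mul, ← pow_succ] at hlt
    exact lt_irrefl _ hlt
  obtain ⟨c, hc⟩ := hex
  set F := (box k n V).filter (fun b => φ b = c) with hF
  have hFc : V ^ ((k - 2) * (n + 1 - k)) ≤ 64 * F.card := by
    have h1 : V ^ ((4 * k - 2) * (n + 1 - k)) ≤ r ^ 3 * F.card := (card_box k n V hk hn).trans hc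
    have h2 : r ^ 3 ≤ 64 * V ^ (3 * k * (n + 1 - k)) := by
      calc r ^ 3 ≤ (4 * V ^ (k * (n + 1 - k))) ^ 3 := Nat.pow_le_pow_left hrV 3
        _ = 64 * V ^ (3 * k * (n + 1 - k)) := by
            rw [mul_pow, ← pow_mul]
            norm_num
            congr 1
            ring
    have h3 : V ^ ((4 * k - 2) * (n + 1 - k)) =
        V ^ ((k - 2) * (n + 1 - k)) * V ^ (3 * k * (n + 1 - k)) := by
      rw [← pow_add, ← add_mul]
      congr 2
      omega
    rw [h3] at h1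
    have h4 : V ^ ((k - 2) * (n + 1 - k)) * V ^ (3 * k * (n + 1 - k)) ≤
        (64 * F.card) * V ^ (3 * k * (n + 1 - k)) := by
      calc _ ≤ _ := h1
        _ ≤ (64 * V ^ (3 * k * (n + 1 - k))) * F.card := Nat.mul_le_mul_right _ h2
        _ = _ := by ring
    exact Nat.le_of_mul_le_mul_right h4 (by positivity)
  have hne : F.Nonempty := by
    rw [← Finset.card_pos]
    have : 0 < V ^ ((k - 2) * (n + 1 - k)) := by positivity
    omega
  obtain ⟨b0, hb0⟩ := hne
  -- a vector with the right values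
  set x0 : Fin (2 * k - 1) → ℤ := fun i => if (i : ℕ) = 0 then s - t * m else
    if (i : ℕ) = 1 then t else 0 with hx0
  have hPx : P x0 = C (s - t * m) + C t * X := by
    ext l
    by_cases hl : l < 2 * k - 1
    · rw [show (P x0).coeff l = x0 ⟨l, hl⟩ from P_coeff x0 ⟨l, hl⟩, hx0]
      simp only [coeff_add, coeff_C, coeff_C_mul, coeff_X]
      rcases l with _ | _ | l
      · simp
      · simp
      · simp
    · rw [P_coeff_ge _ _ (by omega)]
      simp only [coeff_add, coeff_C, coeff_C_mul, coeff_X]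
      rw [if_neg (by omega), if_neg (by omega)]
      simp
  have hevx : ev x0 m = s := by
    rw [← P_eval, hPx]
    simp
  have hdvx : dv x0 m = t := by
    rw [← P_deriv, hPx]
    simp
  obtain ⟨y, hy1, hy2⟩ := reduce hk hn hS (x0 - b0)
  refine ⟨F.image (fun b => y + b), ?_, ?_⟩
  · rw [Finset.card_image_of_injective _ (add_right_injective y)]
    exact hFc
  · intro b hb
    rw [Finset.mem_image] at hb
    obtain ⟨b', hb', rfl⟩ := hb
    rw [hF, Finset.mem_filter] at hb' hb0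
    refine ⟨?_, ?_⟩
    · intro i
      have h1 := Finset.mem_Icc.1 ((Fintype.mem_piFinset.1 hb'.1) i)
      have h2 : |((b' i : ℤ) : ℝ)| ≤ (V : ℝ) ^ (2 * (n - (i : ℕ))) := by
        rw [abs_of_nonneg (by exact_mod_cast h1.1)]
        exact_mod_cast h1.2
      rw [Pi.add_apply, Int.cast_add, add_mul, one_mul]
      exact (abs_add_le _ _).trans (add_le_add (hy2 i) h2)
    · have hφeq : φ b' = φ b0 := by rw [hb'.2, hb0.2]
      have h1 : ((r ^ 2 : ℕ) : ℤ) ∣ ev b' m - ev b0 m := by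
        have := congrArg Prod.fst hφeq
        simp only [hφ] at this
        rw [← ZMod.intCast_zmod_eq_zero_iff_dvd]
        push_cast
        rw [this, sub_self]
      have h2 : (r : ℤ) ∣ dv b' m - dv b0 m := by
        have := congrArg Prod.snd hφeq
        simp only [hφ] at this
        rw [← ZMod.intCast_zmod_eq_zero_iff_dvd]
        push_cast
        rw [this, sub_self]
      have hy3 := mem_Lam.1 hy1
      have hsum1 : ev (y + b') m - s = ev (y - (x0 - b0)) m + (ev b' m - ev b0 m) := by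
        have h3 : y + b' = (y - (x0 - b0)) + (x0 + (b' + (-1 : ℤ) • b0)) := by
          simp only [neg_smul, one_smul]
          abel
        rw [h3, ev_add, ev_add, ev_add, ev_smul, hevx]
        ring
      have hsum2 : dv (y + b') m - t = dv (y - (x0 - b0)) m + (dv b' m - dv b0 m) := by
        have h3 : y + b' = (y - (x0 - b0)) + (x0 + (b' + (-1 : ℤ) • b0)) := by
          simp only [neg_smul, one_smul]
          abel
        rw [h3, dv_add, dv_add, dv_add, dv_smul, hdvx]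
        ring
      rw [hsum1, hsum2]
      push_cast at h1
      exact ⟨dvd_add hy3.1 h1, dvd_add hy3.2 h2⟩

end Pool.Agent.D0H87.SF.CO
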