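import Mathlib
import Pool.Agent.D0H41.SF.Stm
import Pool.Agent.D0H87.SF.CO

/-!
# Project SF, module FAM, part a: the polynomials of the family for a fixed pair `(r, m)`
-/

set_option autoImplicit false

open Polynomial

namespace Pool.Agent.D0H87.SF.FAM

open Pool.Agent.D0H41.SF Pool.Agent.D0H87.SF.CO

theorem pol_eq {n : ℕ} (a : Fin (n - 1) → ℤ) : pol n a = X ^ n + P a := rfl

theorem pol_eval {n : ℕ} (a : Fin (n - 1) → ℤ) (m : ℤ) :
    (pol n a).eval m = m ^ n + ev a m := by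
  rw [pol_eq, eval_add, eval_pow, eval_X, P_eval]

theorem pol_deriv {n : ℕ} (a : Fin (n - 1) → ℤ) (m : ℤ) :
    (derivative (pol n a)).eval m = (n : ℤ) * m ^ (n - 1) + dv a m := by
  rw [pol_eq, derivative_add, eval_add, P_deriv, derivative_X_pow]
  simp

/-- extension by zero -/
def ext {n k : ℕ} (b : Fin (2 * k - 1) → ℤ) : Fin (n - 1) → ℤ :=
  fun i => if h : (i : ℕ) < 2 * k - 1 then b ⟨i, h⟩ else 0

theorem P_ext {n k : ℕ} (hn : 2 * k ≤ n) (b : Fin (2 * k - 1) → ℤ) :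
    P (ext (n := n) b) = P b := by
  ext l
  by_cases hl : l < n - 1
  · rw [show (P (ext (n := n) b)).coeff l = ext b ⟨l, hl⟩ from P_coeff (ext b) ⟨l, hl⟩]
    by_cases h : l < 2 * k - 1
    · rw [show (P b).coeff l = b ⟨l, h⟩ from P_coeff b ⟨l, h⟩, ext, dif_pos h]
    · rw [P_coeff_ge b l (by omega), ext, dif_neg h]
  · rw [P_coeff_ge _ l (by omega), P_coeff_ge _ l (by omega)]

theorem ev_ext {n k : ℕ} (hn : 2 * k ≤ n) (b : Fin (2 * k - 1) → ℤ) (m : ℤ) :
    ev (ext (n := n) b) m = ev b m := by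
  rw [← P_eval, P_ext hn, P_eval]

theorem dv_ext {n k : ℕ} (hn : 2 * k ≤ n) (b : Fin (2 * k - 1) → ℤ) (m : ℤ) :
    dv (ext (n := n) b) m = dv b m := by
  rw [← P_deriv, P_ext hn, P_deriv]

theorem sum_top (d : ℕ) : ∑ x ∈ Finset.range d, 2 * (d + 1 - x) + 2 = (d + 1) * (d + 2) := by
  induction d with
  | zero => simp
  | succ d ih =>
    rw [Finset.sum_range_succ']
    have h1 : ∀ x ∈ Finset.range d, 2 * (d + 1 + 1 - (x + 1)) = 2 * (d + 1 - x) := by
      intro x _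
      omega
    rw [Finset.sum_congr rfl h1]
    have h2 : 2 * (d + 1 + 1 - 0) = 2 * (d + 2) := by omega
    rw [h2]
    nlinarith

theorem sum_exp (n k : ℕ) (hk : 2 ≤ k) (hn : 2 * k ≤ n) :
    ∑ i : Fin (n - 1), (if (i : ℕ) < 2 * k - 1 then 0 else 2 * (n - (i : ℕ))) =
      (n + 1 - 2 * k) * (n + 2 - 2 * k) - 2 := by
  rw [Fin.sum_univ_eq_sum_range (fun i => if i < 2 * k - 1 then 0 else 2 * (n - i)) (n - 1)]
  obtain ⟨d, rfl⟩ := Nat.exists_eq_add_of_le hn
  have h1 : 2 * k + d - 1 = (2 * k - 1) + d := by omega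
  rw [h1, Finset.sum_range_add]
  have h2 : ∑ x ∈ Finset.range (2 * k - 1), (if x < 2 * k - 1 then 0 else 2 * (2 * k + d - x)) = 0 := by
    apply Finset.sum_eq_zero
    intro x hx
    rw [if_pos (Finset.mem_range.1 hx)]
  have h3 : ∑ x ∈ Finset.range d, (if 2 * k - 1 + x < 2 * k - 1 then 0 else
      2 * (2 * k + d - (2 * k - 1 + x))) = ∑ x ∈ Finset.range d, 2 * (d + 1 - x) := by
    apply Finset.sum_congr rfl
    intro x _
    rw [if_neg (by omega)]
    congr 1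
    omega
  rw [h2, h3, zero_add]
  have h4 := sum_top d
  have h5 : 2 * k + d + 1 - 2 * k = d + 1 := by omega
  have h6 : 2 * k + d + 2 - 2 * k = d + 2 := by omega
  rw [h5, h6]
  omega

/-- the top coefficients -/
noncomputable def top (n k V : ℕ) : Finset (Fin (n - 1) → ℤ) :=
  Fintype.piFinset fun i : Fin (n - 1) =>
    if (i : ℕ) < 2 * k - 1 then {0} else Finset.Ico (0 : ℤ) ((V ^ (2 * (n - (i : ℕ))) : ℕ) : ℤ)

theorem card_top (n k V : ℕ) (hk : 2 ≤ k) (hn : 2 * k ≤ n) :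
    (top n k V).card = V ^ ((n + 1 - 2 * k) * (n + 2 - 2 * k) - 2) := by
  rw [← sum_exp n k hk hn, ← Finset.prod_pow_eq_pow_sum, top, Fintype.card_piFinset]
  apply Finset.prod_congr rfl
  intro i _
  split_ifs
  · simp
  · rw [Int.card_Ico]
    omega

/-- The polynomials for a fixed pair. -/
theorem fiber {n k q : ℕ} (hk : 2 ≤ k) (hn : 2 * k ≤ n) (hq : 1 ≤ q) (a0 : Fin (n - 1) → ℤ)
    (C₁ M : ℝ) (hC₁ : 0 < C₁) (hM0 : 0 ≤ M) (hM : ∀ i, |((a0 i : ℤ) : ℝ)| ≤ M)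
    (V r : ℕ) (m : ℤ) (hV : 1 ≤ V) (hcop : IsCoprime (q : ℤ) (r : ℤ))
    (hB : ∀ s t : ℤ, ∃ B : Finset (Fin (2 * k - 1) → ℤ),
      V ^ ((k - 2) * (n + 1 - k)) ≤ 64 * B.card ∧
      ∀ b ∈ B, (∀ i, |((b i : ℤ) : ℝ)| ≤ C₁ * (V : ℝ) ^ (2 * (n - (i : ℕ)))) ∧
        (r : ℤ) ^ 2 ∣ ev b m - s ∧ (r : ℤ) ∣ dv b m - t) :
    ∃ A : Finset (Fin (n - 1) → ℤ),
      V ^ ((n + 1 - 2 * k) * (n + 2 - 2 * k) - 2 + (k - 2) * (n + 1 - k)) ≤ 64 * A.card ∧
      ∀ a ∈ A, (∀ i, |((a i : ℤ) : ℝ)| ≤ (M + q * (C₁ + 1)) * (V : ℝ) ^ (2 * (n - (i : ℕ)))) ∧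
        (∀ i, (q : ℤ) ∣ a i - a0 i) ∧ (r : ℤ) ^ 2 ∣ (pol n a).eval m ∧
        (r : ℤ) ∣ (derivative (pol n a)).eval m := by
  classical
  have hsol : ∀ (F : ℤ) (R : ℤ), IsCoprime (q : ℤ) R → ∃ s : ℤ, R ∣ (q : ℤ) * s + F := by
    rintro F R ⟨u, v, huv⟩
    refine ⟨-F * u, F * v, ?_⟩
    linear_combination -F * huv
  have hs : ∀ c : Fin (n - 1) → ℤ, ∃ s : ℤ,
      (r : ℤ) ^ 2 ∣ (q : ℤ) * s + (pol n (a0 + (q : ℤ) • c)).eval m :=
    fun c => hsol _ _ hcop.pow_right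
  have ht : ∀ c : Fin (n - 1) → ℤ, ∃ t : ℤ,
      (r : ℤ) ∣ (q : ℤ) * t + (derivative (pol n (a0 + (q : ℤ) • c))).eval m :=
    fun c => hsol _ _ hcop
  choose s hs using hs
  choose t ht using ht
  choose B hB1 hB2 using fun c : Fin (n - 1) → ℤ => hB (s c) (t c)
  set Φ : (Σ _ : Fin (n - 1) → ℤ, Fin (2 * k - 1) → ℤ) → (Fin (n - 1) → ℤ) :=
    fun x => a0 + (q : ℤ) • (x.1 + ext x.2) with hΦ
  set S : Finset (Σ _ : Fin (n - 1) → ℤ, Fin (2 * k - 1) → ℤ) := (top n k V).sigma B with hS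
  have hq0 : (q : ℤ) ≠ 0 := by
    have : q ≠ 0 := by omega
    exact_mod_cast this
  have hinj : Set.InjOn Φ S := by
    rintro ⟨c, b⟩ hx ⟨c', b'⟩ hx' h
    rw [Finset.mem_coe, hS, Finset.mem_sigma] at hx hx'
    simp only at hx hx'
    have h1 : c + ext b = c' + ext b' := by
      have h2 : a0 + (q : ℤ) • (c + ext b) = a0 + (q : ℤ) • (c' + ext b') := h
      exact smul_right_injective _ hq0 (add_left_cancel h2)
    have hc := Fintype.mem_piFinset.1 hx.1
    have hc' := Fintype.mem_piFinset.1 hx'.1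
    have h3 : ∀ i : Fin (n - 1), c i = c' i ∧ (ext b : Fin (n - 1) → ℤ) i = ext b' i := by
      intro i
      have h4 := congrFun h1 i
      simp only [Pi.add_apply] at h4
      by_cases hi : (i : ℕ) < 2 * k - 1
      · have h5 := hc i
        have h6 := hc' i
        rw [if_pos hi, Finset.mem_singleton] at h5 h6
        rw [h5, h6] at h4
        refine ⟨by rw [h5, h6], by linarith⟩
      · have h5 : (ext b : Fin (n - 1) → ℤ) i = 0 := by rw [ext, dif_neg hi]
        have h6 : (ext b' : Fin (n - 1) → ℤ) i = 0 := by rw [ext, dif_neg hi]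
        rw [h5, h6] at h4
        refine ⟨by linarith, by rw [h5, h6]⟩
    have hcc : c = c' := funext fun i => (h3 i).1
    have hbb : b = b' := by
      funext j
      have hj := j.2
      have h4 := (h3 ⟨(j : ℕ), by omega⟩).2
      simp only [ext, hj, dif_pos] at h4
      exact h4
    rw [hcc, hbb]
  refine ⟨S.image Φ, ?_, ?_⟩
  · rw [Finset.card_image_of_injOn hinj, hS, Finset.card_sigma, pow_add, ← card_top n k V hk hn,
      Finset.mul_sum, ← smul_eq_mul, ← Finset.sum_const]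
    apply Finset.sum_le_sum
    intro c _
    exact hB1 c
  · intro a ha
    rw [Finset.mem_image] at ha
    obtain ⟨⟨c, b⟩, hx, rfl⟩ := ha
    rw [hS, Finset.mem_sigma] at hx
    simp only at hx
    have hc := Fintype.mem_piFinset.1 hx.1
    obtain ⟨hb1, hb2, hb3⟩ := hB2 c b hx.2
    have hVR : (1 : ℝ) ≤ V := by exact_mod_cast hV
    refine ⟨?_, ?_, ?_, ?_⟩
    · intro i
      have hp : (1 : ℝ) ≤ (V : ℝ) ^ (2 * (n - (i : ℕ))) := one_le_pow₀ hVR
      have h1 : |(((c + (ext b : Fin (n - 1) → ℤ)) i : ℤ) : ℝ)| ≤ (C₁ + 1) * (V : ℝ) ^ (2 * (n - (i : ℕ))) := by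
        rw [Pi.add_apply]
        by_cases hi : (i : ℕ) < 2 * k - 1
        · have h5 := hc i
          rw [if_pos hi, Finset.mem_singleton] at h5
          rw [h5, zero_add, ext, dif_pos hi]
          have h6 := hb1 ⟨(i : ℕ), hi⟩
          simp only at h6
          refine h6.trans ?_
          apply mul_le_mul_of_nonneg_right _ (by positivity)
          linarith
        · have h5 := hc i
          rw [if_neg hi, Finset.mem_Ico] at h5
          rw [ext, dif_neg hi, add_zero, abs_of_nonneg (by exact_mod_cast h5.1)]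
          have h6 : ((c i : ℤ) : ℝ) ≤ (V : ℝ) ^ (2 * (n - (i : ℕ))) := by
            exact_mod_cast h5.2.le
          refine h6.trans ?_
          nlinarith
      have h2 : ((Φ ⟨c, b⟩ i : ℤ) : ℝ) = ((a0 i : ℤ) : ℝ) + q * (((c + (ext b : Fin (n - 1) → ℤ)) i : ℤ) : ℝ) := by
        simp only [hΦ, Pi.add_apply, Pi.smul_apply, smul_eq_mul]
        push_cast
        ring
      rw [h2]
      calc |((a0 i : ℤ) : ℝ) + q * (((c + (ext b : Fin (n - 1) → ℤ)) i : ℤ) : ℝ)|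
          ≤ |((a0 i : ℤ) : ℝ)| + |(q : ℝ) * (((c + (ext b : Fin (n - 1) → ℤ)) i : ℤ) : ℝ)| := abs_add_le _ _
        _ ≤ M * (V : ℝ) ^ (2 * (n - (i : ℕ))) +
            q * ((C₁ + 1) * (V : ℝ) ^ (2 * (n - (i : ℕ)))) := by
            apply add_le_add
            · refine (hM i).trans ?_
              exact le_mul_of_one_le_right hM0 hp
            · rw [abs_mul, Nat.abs_cast]
              exact mul_le_mul_of_nonneg_left h1 (Nat.cast_nonneg _)
        _ = _ := by ring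
    · intro i
      refine ⟨(c + (ext b : Fin (n - 1) → ℤ)) i, ?_⟩
      simp only [hΦ, Pi.add_apply, Pi.smul_apply, smul_eq_mul]
      ring
    · have h1 : (pol n (Φ ⟨c, b⟩)).eval m =
          ((q : ℤ) * s c + (pol n (a0 + (q : ℤ) • c)).eval m) + (q : ℤ) * (ev b m - s c) := by
        rw [pol_eval, pol_eval]
        have h2 : Φ ⟨c, b⟩ = a0 + (q : ℤ) • c + (q : ℤ) • ext b := by
          simp only [hΦ, smul_add]
          abel
        rw [h2, ev_add, ev_smul, ev_ext hn]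
        ring
      rw [h1]
      exact dvd_add (hs c) (Dvd.dvd.mul_left hb2 _)
    · have h1 : (derivative (pol n (Φ ⟨c, b⟩))).eval m =
          ((q : ℤ) * t c + (derivative (pol n (a0 + (q : ℤ) • c))).eval m) +
            (q : ℤ) * (dv b m - t c) := by
        rw [pol_deriv, pol_deriv]
        have h2 : Φ ⟨c, b⟩ = a0 + (q : ℤ) • c + (q : ℤ) • ext b := by
          simp only [hΦ, smul_add]
          abel
        rw [h2, dv_add, dv_smul, dv_ext hn]
        ring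
      rw [h1]
      exact dvd_add (ht c) (Dvd.dvd.mul_left hb3 _)

end Pool.Agent.D0H87.SF.FAM
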