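import Mathlib
import Pool.Agent.D0H41.SF.Stm
import Pool.Agent.D0H15.SF.Dsc

/-!
# Project SF, module IDX: the discriminant of the field
-/

set_option autoImplicit false

open Polynomial NumberField Matrix

namespace Pool.Agent.D0H87.SF.IDX

open Pool.Agent.D0H41.SF Pool.Agent.D0H15.SF

/-- The discriminant of the field is at most that of a family of integers. -/
theorem discr_le' {L : Type} [Field L] [NumberField L] {ι : Type} [Fintype ι] [DecidableEq ι]
    (b : ι → L) (hb : ∀ i, IsIntegral ℤ (b i)) (hc : Fintype.card ι = Module.finrank ℚ L)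
    (hd : Algebra.discr ℚ b ≠ 0) :
    |((NumberField.discr L : ℤ) : ℚ)| ≤ |Algebra.discr ℚ b| := by
  have hcard : Fintype.card (Module.Free.ChooseBasisIndex ℤ (𝓞 L)) = Fintype.card ι := by
    rw [← Module.finrank_eq_card_basis (integralBasis L), hc]
  obtain ⟨e⟩ : Nonempty (Module.Free.ChooseBasisIndex ℤ (𝓞 L) ≃ ι) := ⟨Fintype.equivOfCardEq hcard⟩
  obtain ⟨BQ, hBQ⟩ : ∃ BQ : Module.Basis ι ℚ L, BQ = (integralBasis L).reindex e := ⟨_, rfl⟩
  obtain ⟨y, hy⟩ : ∃ y : ι → 𝓞 L, ∀ k, algebraMap (𝓞 L) L (y k) = b k :=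
    ⟨fun k => ⟨b k, hb k⟩, fun k => rfl⟩
  obtain ⟨P', hP'⟩ : ∃ P' : Matrix ι ι ℤ, ∀ l k,
      P' l k = (RingOfIntegers.basis L).repr (y k) (e.symm l) :=
    ⟨Matrix.of fun l k => (RingOfIntegers.basis L).repr (y k) (e.symm l), fun _ _ => rfl⟩
  have hrepr : ∀ k l, BQ.repr (b k) l = ((P' l k : ℤ) : ℚ) := by
    intro k l
    rw [hBQ, Module.Basis.repr_reindex_apply, ← hy, integralBasis_repr_apply, hP']
    rfl
  have h1 : (b : ι → L) = (BQ : ι → L) ᵥ* (P'.map (Int.cast : ℤ → ℚ)).map (algebraMap ℚ L) := by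
    funext k
    simp only [Matrix.vecMul, dotProduct, Matrix.map_apply]
    rw [← BQ.sum_repr (b k)]
    refine Finset.sum_congr rfl fun l _ => ?_
    rw [Algebra.smul_def, mul_comm, hrepr]
  have h2 : Algebra.discr ℚ BQ = ((NumberField.discr L : ℤ) : ℚ) := by
    rw [coe_discr, hBQ, Module.Basis.coe_reindex]
    exact Algebra.discr_reindex ℚ (integralBasis L) e
  have h3 : Algebra.discr ℚ b = ((P'.det : ℤ) : ℚ) ^ 2 * ((NumberField.discr L : ℤ) : ℚ) := by
    rw [h1, Algebra.discr_of_matrix_vecMul, h2]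
    congr 2
    exact ((Int.castRingHom ℚ).map_det P').symm
  have hdet : P'.det ≠ 0 := by
    intro h0
    rw [h3, h0] at hd
    simp at hd
  rw [h3, abs_mul, abs_pow]
  have h5 : (1 : ℚ) ≤ |((P'.det : ℤ) : ℚ)| := by
    rw [← Int.cast_abs]
    exact_mod_cast Int.one_le_abs hdet
  have h6 : (1 : ℚ) ≤ |((P'.det : ℤ) : ℚ)| ^ 2 := one_le_pow₀ h5
  exact le_mul_of_one_le_left (abs_nonneg _) h6

theorem sum_deg {n : ℕ} (hn : 2 ≤ n) (a : Fin (n - 1) → ℤ) :
    (∑ i : Fin (n - 1), C (a i) * X ^ (i : ℕ) : ℤ[X]).degree < (n : WithBot ℕ) := by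
  rw [degree_lt_iff_coeff_zero]
  intro l hl
  rw [finsetSum_coeff]
  apply Finset.sum_eq_zero
  intro i _
  rw [coeff_C_mul, coeff_X_pow, if_neg, mul_zero]
  have := i.2
  omega

theorem pol_monic {n : ℕ} (hn : 2 ≤ n) (a : Fin (n - 1) → ℤ) : (pol n a).Monic :=
  monic_X_pow_add (sum_deg hn a)

theorem pol_natDegree {n : ℕ} (hn : 2 ≤ n) (a : Fin (n - 1) → ℤ) : (pol n a).natDegree = n := by
  rw [pol, natDegree_add_eq_left_of_degree_lt, natDegree_X_pow]
  rw [degree_X_pow]
  exact sum_deg hn a

theorem polQ_monic {n : ℕ} (hn : 2 ≤ n) (a : Fin (n - 1) → ℤ) : (polQ n a).Monic :=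
  (pol_monic hn a).map _

theorem polQ_natDegree {n : ℕ} (hn : 2 ≤ n) (a : Fin (n - 1) → ℤ) : (polQ n a).natDegree = n := by
  rw [polQ, (pol_monic hn a).natDegree_map, pol_natDegree hn]

/-- The first quotients. -/
theorem quot {n : ℕ} (hn : 2 ≤ n) (f : ℤ[X]) (hf : f.Monic) (hdeg : f.natDegree = n) (m : ℤ) :
    ∃ g q : ℤ[X], g.Monic ∧ g.natDegree = n - 1 ∧ f = C (f.eval m) + (X - C m) * g ∧
      g = C ((derivative f).eval m) + (X - C m) * q := by
  obtain ⟨g, hg⟩ : ∃ g, g = f /ₘ (X - C m) := ⟨_, rfl⟩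
  have h1 : f = C (f.eval m) + (X - C m) * g := by
    have := modByMonic_add_div f (X - C m)
    rw [modByMonic_X_sub_C_eq_C_eval, ← hg] at this
    exact this.symm
  have h2 : (derivative f).eval m = g.eval m := by
    conv_lhs => rw [h1]
    simp [derivative_mul]
  have h3 : (X - C m) * g = f - C (f.eval m) := by
    conv_rhs => rw [h1]
    simp
  have h4 : (f - C (f.eval m)).Monic := by
    apply hf.sub_of_left
    refine lt_of_le_of_lt degree_C_le ?_
    rw [← natDegree_pos_iff_degree_pos]
    omega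
  have h5 : g.Monic := (monic_X_sub_C m).of_mul_monic_left (by rw [h3]; exact h4)
  have h6 : g.natDegree = n - 1 := by
    have h7 : ((X - C m) * g).natDegree = n := by
      rw [h3, natDegree_sub_C, hdeg]
    rw [(monic_X_sub_C m).natDegree_mul h5, natDegree_X_sub_C] at h7
    omega
  refine ⟨g, g /ₘ (X - C m), h5, h6, h1, ?_⟩
  have := modByMonic_add_div g (X - C m)
  rw [modByMonic_X_sub_C_eq_C_eval, ← h2] at this
  exact this.symm

/-- The integer `g(θ)/r`. -/
theorem integral_beta {L : Type} [Field L] [CharZero L] (f g q : ℤ[X]) (hfm : f.Monic) (m : ℤ)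
    (r : ℕ) (hr : 1 ≤ r)
    (h1 : f = C (f.eval m) + (X - C m) * g) (h2 : g = C ((derivative f).eval m) + (X - C m) * q)
    (hA : (r : ℤ) ^ 2 ∣ f.eval m) (hB : (r : ℤ) ∣ (derivative f).eval m) (x : L)
    (hx : aeval x f = 0) : IsIntegral ℤ (aeval x g / (r : L)) := by
  obtain ⟨A, hA⟩ := hA
  obtain ⟨B, hB⟩ := hB
  have hr0 : (r : L) ≠ 0 := by
    have : r ≠ 0 := by omega
    exact_mod_cast this
  have hxint : IsIntegral ℤ x := ⟨f, hfm, hx⟩
  have hq : IsIntegral ℤ (aeval x q) := by
    have : aeval x q ∈ Algebra.adjoin ℤ {x} := aeval_mem_adjoin_singleton _ _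
    have h3 : Algebra.adjoin ℤ {x} ≤ integralClosure ℤ L :=
      Algebra.adjoin_le (Set.singleton_subset_iff.2 hxint)
    exact h3 this
  have e1 : (x - (m : L)) * aeval x g = -(((r : L)) ^ 2 * (A : L)) := by
    have := congrArg (aeval x) h1
    rw [hx, hA] at this
    simp only [map_add, map_mul, map_sub, aeval_C, aeval_X, map_pow] at this
    simp only [algebraMap_int_eq, eq_intCast, Int.cast_mul, Int.cast_pow, Int.cast_natCast] at this
    linear_combination -this
  have e2 : aeval x g = ((r : L)) * (B : L) + (x - (m : L)) * aeval x q := by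
    have := congrArg (aeval x) h2
    rw [hB] at this
    simp only [map_add, map_mul, map_sub, aeval_C, aeval_X] at this
    simp only [algebraMap_int_eq, eq_intCast, Int.cast_mul, Int.cast_natCast] at this
    exact this
  have key : (aeval x g / (r : L)) ^ 2 - (B : L) * (aeval x g / (r : L)) + (A : L) * aeval x q = 0 := by
    have e3 : aeval x g * aeval x g - (r : L) * (B : L) * aeval x g +
        (r : L) ^ 2 * ((A : L) * aeval x q) = 0 := by
      have : aeval x g * aeval x g - (r : L) * (B : L) * aeval x g =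
          ((x - (m : L)) * aeval x g) * aeval x q := by
        nth_rewrite 1 [e2]
        ring
      rw [this, e1]
      ring
    have e4 : (r : L) ^ 2 * ((aeval x g / (r : L)) ^ 2 - (B : L) * (aeval x g / (r : L)) +
        (A : L) * aeval x q) = 0 := by
      rw [← e3]
      field_simp
    exact (mul_eq_zero.1 e4).resolve_left (pow_ne_zero 2 hr0)
  have hint : IsIntegral (integralClosure ℤ L) (aeval x g / (r : L)) := by
    let c : integralClosure ℤ L := ⟨(A : L) * aeval x q,
      (isIntegral_algebraMap (R := ℤ) (A := L) (x := A)).mul hq⟩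
    refine ⟨X ^ 2 + (C (-(B : integralClosure ℤ L)) * X + C c), ?_, ?_⟩
    · apply monic_X_pow_add
      exact degree_linear_lt
    · rw [eval₂_add, eval₂_add, eval₂_mul, eval₂_C, eval₂_C, eval₂_X, eval₂_X_pow]
      have hc : algebraMap (integralClosure ℤ L) L c = (A : L) * aeval x q := rfl
      rw [hc, map_neg, map_intCast]
      linear_combination key
  exact isIntegral_trans _ hint

theorem t_IDX : S_IDX := by
  classical
  intro n a θ r m T hn hr hT hirr hroot hA hB hsiz
  have hmon := polQ_monic hn a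
  have hmp : minpoly ℚ θ = polQ n a := by
    symm
    apply minpoly.eq_of_irreducible_of_monic hirr _ hmon
    have : (Int.castRingHom ℚ) = algebraMap ℤ ℚ := rfl
    rw [polQ, this, aeval_map_algebraMap]
    exact hroot
  have hθint : IsIntegral ℚ θ := ⟨polQ n a, hmon, by
    rw [← aeval_def, polQ]
    have : (Int.castRingHom ℚ) = algebraMap ℤ ℚ := rfl
    rw [this, aeval_map_algebraMap]
    exact hroot⟩
  have hfr : Module.finrank ℚ (IntermediateField.adjoin ℚ {θ}) = n := by
    rw [IntermediateField.adjoin.finrank hθint, hmp, polQ_natDegree hn]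
  refine ⟨hfr, ?_⟩
  have : FiniteDimensional ℚ (IntermediateField.adjoin ℚ {θ}) :=
    IntermediateField.adjoin.finiteDimensional hθint
  have : NumberField (IntermediateField.adjoin ℚ {θ}) := {}
  refine ⟨inferInstance, ?_⟩
  set L := IntermediateField.adjoin ℚ {θ} with hL
  set g0 : L := IntermediateField.AdjoinSimple.gen ℚ θ with hg0
  have hg0θ : (g0 : Qb) = θ := IntermediateField.AdjoinSimple.coe_gen ℚ θ
  have hg0root : aeval g0 (pol n a) = 0 := by
    have : ((aeval g0 (pol n a) : L) : Qb) = aeval θ (pol n a) := by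
      rw [← hg0θ]
      exact (aeval_algebraMap_apply Qb g0 (pol n a)).symm
    rw [hroot] at this
    exact_mod_cast this
  obtain ⟨g, q, hgm, hgd, h1, h2⟩ := quot hn (pol n a) (pol_monic hn a) (pol_natDegree hn a) m
  have hβ := integral_beta (L := L) (pol n a) g q (pol_monic hn a) m r hr h1 h2 hA hB g0 hg0root
  -- the power basis
  let pb := IntermediateField.adjoin.powerBasis hθint
  have hdim : pb.dim = n := by
    rw [IntermediateField.adjoin.powerBasis_dim, hmp, polQ_natDegree hn]
  let b : Module.Basis (Fin n) ℚ L := pb.basis.reindex (finCongr hdim)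
  have hb : ∀ i : Fin n, b i = g0 ^ (i : ℕ) := by
    intro i
    simp only [b, Module.Basis.reindex_apply, PowerBasis.coe_basis, pb,
      IntermediateField.adjoin.powerBasis_gen]
    rfl
  let P : Matrix (Fin n) (Fin n) ℚ := Matrix.of fun i j =>
    if (j : ℕ) = n - 1 then (g.coeff (i : ℕ) : ℚ) / r else if i = j then 1 else 0
  have hr0 : (r : ℚ) ≠ 0 := by
    have : r ≠ 0 := by omega
    exact_mod_cast this
  have hPdet : P.det = 1 / r := by
    have htri : P.BlockTriangular id := by
      intro i j hij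
      simp only [id] at hij
      have h3 : (j : ℕ) < (i : ℕ) := hij
      have h4 := i.2
      simp only [P, Matrix.of_apply]
      rw [if_neg (by omega), if_neg (by rintro rfl; omega)]
    rw [Matrix.det_of_isUpperTriangular htri, Finset.prod_eq_single (⟨n - 1, by omega⟩ : Fin n)]
    · simp only [P, Matrix.of_apply, if_true]
      have : g.coeff (n - 1) = 1 := by
        rw [← hgd]
        exact hgm
      rw [this]
      norm_num
    · intro i _ hi
      simp only [P, Matrix.of_apply, if_true]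
      rw [if_neg]
      intro h3
      exact hi (Fin.ext h3)
    · intro h3
      exact absurd (Finset.mem_univ _) h3
  set y : Fin n → L := (b : Fin n → L) ᵥ* (P.map (algebraMap ℚ L)) with hy
  have hdis : Algebra.discr ℚ y = (1 / r) ^ 2 * Algebra.discr ℚ b := by
    rw [hy, Algebra.discr_of_matrix_vecMul, hPdet]
  have hyint : ∀ i, IsIntegral ℤ (y i) := by
    intro j
    by_cases hj : (j : ℕ) = n - 1
    · have : y j = aeval g0 g / (r : L) := by
        rw [hy]
        simp only [Matrix.vecMul, dotProduct, Matrix.map_apply, P, Matrix.of_apply, if_pos hj, hb]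
        rw [aeval_eq_sum_range, hgd, Finset.sum_div,
          ← Fin.sum_univ_eq_sum_range (fun i => g.coeff i • g0 ^ i / (r : L)) (n - 1 + 1)]
        have hnn : n - 1 + 1 = n := by omega
        rw [← (finCongr hnn).sum_comp]
        apply Finset.sum_congr rfl
        intro i _
        rw [map_div₀, map_intCast, map_natCast, zsmul_eq_mul]
        simp only [finCongr_apply, Fin.val_cast]
        ring
      rw [this]
      exact hβ
    · have : y j = g0 ^ (j : ℕ) := by
        rw [hy]
        simp only [Matrix.vecMul, dotProduct, Matrix.map_apply, P, Matrix.of_apply, if_neg hj, hb]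
        rw [Finset.sum_eq_single j]
        · simp
        · intro i _ hi
          rw [if_neg hi, map_zero, mul_zero]
        · intro h3
          exact absurd (Finset.mem_univ _) h3
      rw [this]
      have hg0int : IsIntegral ℤ g0 := ⟨pol n a, pol_monic hn a, hg0root⟩
      exact hg0int.pow _
  have hdn : Algebra.discr ℚ y ≠ 0 := by
    rw [hdis]
    exact mul_ne_zero (pow_ne_zero 2 (one_div_ne_zero hr0)) (Algebra.discr_not_zero_of_basis ℚ b)
  have hle := discr_le' y hyint (by rw [Fintype.card_fin]; exact hfr.symm) hdn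
  have hbd := discr_bound b (fun i => T ^ (i : ℕ)) (by
    intro τ i
    rw [hb i, map_pow, norm_pow]
    obtain ⟨φ, hφ⟩ := ext_emb L τ
    have h3 : ‖τ g0‖ ≤ T := by
      rw [← hφ, hg0θ]
      exact hsiz φ
    exact pow_le_pow_left₀ (norm_nonneg _) h3 _)
  rw [Fintype.card_fin, Finset.prod_pow_eq_pow_sum, Fin.sum_univ_eq_sum_range (fun i => i) n,
    Finset.sum_range_id] at hbd
  have h4 : ((|NumberField.discr L| : ℤ) : ℝ) ≤ ((|Algebra.discr ℚ y| : ℚ) : ℝ) := by
    have h5 : ((|NumberField.discr L| : ℤ) : ℚ) ≤ |Algebra.discr ℚ y| := by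
      rw [Int.cast_abs]; exact hle
    exact_mod_cast (Rat.cast_le (K := ℝ)).2 h5
  refine h4.trans ?_
  rw [hdis, abs_mul, abs_pow, Rat.cast_mul, Rat.cast_pow, div_pow, abs_of_pos (by positivity)]
  have hrR : (0 : ℝ) < (r : ℝ) ^ 2 := by
    have : (0 : ℝ) < r := by exact_mod_cast hr
    positivity
  rw [le_div_iff₀ hrR]
  push_cast at hbd ⊢
  calc (1 / (r : ℝ)) ^ 2 * |((Algebra.discr ℚ b : ℚ) : ℝ)| * (r : ℝ) ^ 2
      = |((Algebra.discr ℚ b : ℚ) : ℝ)| := by
        field_simp
    _ ≤ _ := hbd

end Pool.Agent.D0H87.SF.IDX
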