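import Mathlib
import Pool.Agent.D0H41.SF.Stm
import Pool.Agent.D0H87.SF.IDX
import Pool.Agent.D0H87.SF.CO

/-!
# Project SF, module FAM, part b: a polynomial belongs to few pairs `(r, m)`
-/

set_option autoImplicit false

open Polynomial

namespace Pool.Agent.D0H87.SF.FAM

open Pool.Agent.D0H41.SF Pool.Agent.D0H87.SF.IDX

/-- A monic polynomial of degree `n` has at most `n` roots modulo a prime. -/
theorem roots_le {n r : ℕ} (hr : r.Prime) (f : ℤ[X]) (hf : f.Monic) (hd : f.natDegree = n)
    (S : Finset ℕ) (hS : ∀ m ∈ S, m < r ∧ (r : ℤ) ∣ f.eval (m : ℤ)) : S.card ≤ n := by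
  have : Fact r.Prime := ⟨hr⟩
  set P : (ZMod r)[X] := f.map (Int.castRingHom (ZMod r)) with hP
  have hPm : P.Monic := hf.map _
  have hPd : P.natDegree = n := by rw [hP, hf.natDegree_map, hd]
  calc S.card ≤ P.roots.toFinset.card := by
        apply Finset.card_le_card_of_injOn (fun m : ℕ => (m : ZMod r))
        · intro m hm
          rw [Finset.mem_coe] at hm
          rw [Finset.mem_coe, Multiset.mem_toFinset, mem_roots hPm.ne_zero, IsRoot.def, hP]
          have h1 : ((m : ℕ) : ZMod r) = Int.castRingHom (ZMod r) (m : ℤ) := by simp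
          show eval ((m : ℕ) : ZMod r) (map (Int.castRingHom (ZMod r)) f) = 0
          rw [h1, eval_map_apply, eq_intCast, ZMod.intCast_zmod_eq_zero_iff_dvd]
          exact (hS m hm).2
        · intro a ha b hb hab
          rw [Finset.mem_coe] at ha hb
          have h1 := (ZMod.natCast_eq_natCast_iff' a b r).1 hab
          rwa [Nat.mod_eq_of_lt (hS a ha).1, Nat.mod_eq_of_lt (hS b hb).1] at h1
    _ ≤ P.roots.card := Multiset.toFinset_card_le _
    _ ≤ P.natDegree := card_roots' P
    _ = n := hPd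

/-- The resultant of the polynomial and its derivative. -/
theorem exists_disc {n : ℕ} (hn : 2 ≤ n) (a : Fin (n - 1) → ℤ) (hirr : Irreducible (polQ n a))
    (Y : ℤ) (hY : 1 ≤ Y) (ha : ∀ i, |a i| ≤ Y) :
    ∃ Δ : ℤ, Δ ≠ 0 ∧ |Δ| ≤ (2 * n - 1).factorial * (n * Y) ^ (2 * n - 1) ∧
      ∃ p q : ℤ[X], pol n a * p + derivative (pol n a) * q = C Δ := by
  have hmon := pol_monic hn a
  have hdeg := pol_natDegree hn a
  have hddeg : (derivative (pol n a)).natDegree = n - 1 := by
    have h0 : 0 < (pol n a).degree := natDegree_pos_iff_degree_pos.1 (by omega)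
    rw [natDegree, degree_derivative (natDegree_pos_iff_degree_pos.2 h0).ne', hdeg]
    rfl
  refine ⟨resultant (pol n a) (derivative (pol n a)) n (n - 1), ?_, ?_, ?_⟩
  · intro h0
    have h1 : resultant (polQ n a) (derivative (polQ n a)) ≠ 0 :=
      resultant_ne_zero _ _ hirr.separable
    apply h1
    have h2 : (polQ n a).natDegree = n := polQ_natDegree hn a
    have h3 : derivative (polQ n a) = (derivative (pol n a)).map (Int.castRingHom ℚ) := by
      rw [polQ, derivative_map]
    have h4 : (derivative (polQ n a)).natDegree = n - 1 := by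
      rw [h3, natDegree_map_eq_of_injective (RingHom.injective_int _), hddeg]
    rw [h2, h4, h3, polQ, resultant_map_map, h0, map_zero]
  · have hcoef : ∀ l, |(pol n a).coeff l| ≤ Y := by
      intro l
      have h1 : pol n a = X ^ n + CO.P a := rfl
      rw [h1, coeff_add, coeff_X_pow]
      by_cases hl : l < n - 1
      · rw [if_neg (by omega), zero_add,
          show (CO.P a).coeff l = a ⟨l, hl⟩ from CO.P_coeff a ⟨l, hl⟩]
        exact ha _
      · rw [CO.P_coeff_ge a l (by omega), add_zero]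
        split_ifs <;> simp <;> omega
    have hY0 : 0 ≤ Y := by omega
    have hn1 : (1 : ℤ) ≤ n := by exact_mod_cast (by omega : 1 ≤ n)
    have hnY : Y ≤ (n : ℤ) * Y := le_mul_of_one_le_left hY0 hn1
    have hdcoef : ∀ l, |(derivative (pol n a)).coeff l| ≤ (n : ℤ) * Y := by
      intro l
      by_cases hl : l ≤ n - 1
      · rw [coeff_derivative, abs_mul, mul_comm]
        apply mul_le_mul _ (hcoef _) (abs_nonneg _) (by omega)
        rw [abs_of_nonneg (by positivity)]
        have : l + 1 ≤ n := by omega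
        exact_mod_cast this
      · rw [coeff_eq_zero_of_natDegree_lt (by rw [hddeg]; omega), abs_zero]
        positivity
    have hentry : ∀ i j, AbsoluteValue.abs
        (sylvester (pol n a) (derivative (pol n a)) n (n - 1) i j) ≤ (n : ℤ) * Y := by
      intro i j
      rw [AbsoluteValue.abs_apply]
      induction j using Fin.addCases with
      | left j =>
        simp only [sylvester, Matrix.of_apply, Fin.addCases_left]
        split_ifs
        · exact hdcoef _
        · rw [abs_zero]; positivity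
      | right j =>
        simp only [sylvester, Matrix.of_apply, Fin.addCases_right]
        split_ifs
        · exact (hcoef _).trans hnY
        · rw [abs_zero]; positivity
    have := Matrix.det_le (abv := AbsoluteValue.abs) hentry
    rw [Fintype.card_fin, AbsoluteValue.abs_apply, nsmul_eq_mul] at this
    have h5 : n + (n - 1) = 2 * n - 1 := by omega
    rw [resultant, ← h5]
    exact_mod_cast this
  · obtain ⟨p, q, _, _, h⟩ := exists_mul_add_mul_eq_C_resultant (m := n) (n := n - 1) (pol n a)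
      (derivative (pol n a)) hdeg.le hddeg.le (Or.inl (by omega))
    exact ⟨p, q, h⟩

theorem mult {n : ℕ} (hn : 4 ≤ n) (K : ℝ) (hK : 0 < K) : ∃ V₁ : ℕ, ∀ V : ℕ, V₁ ≤ V →
    ∀ a : Fin (n - 1) → ℤ, Irreducible (polQ n a) →
    (∀ i, |((a i : ℤ) : ℝ)| ≤ K * (V : ℝ) ^ (2 * (n - (i : ℕ)))) →
    ∀ S : Finset (ℕ × ℕ), (∀ x ∈ S, x.1.Prime ∧ V < x.1 ∧ x.2 < x.1 ∧
      (x.1 : ℤ) ∣ (pol n a).eval (x.2 : ℤ) ∧ (x.1 : ℤ) ∣ (derivative (pol n a)).eval (x.2 : ℤ)) →
    S.card ≤ 4 * n ^ 3 := by
  classical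
  refine ⟨⌈K⌉₊ * n + (2 * n - 1).factorial + 2, ?_⟩
  intro V hV a hirr ha S hS
  have hV2 : 2 ≤ V := by omega
  have hVK : ⌈K⌉₊ * n ≤ V := by omega
  have hVf : (2 * n - 1).factorial ≤ V := by omega
  have hK1 : 1 ≤ ⌈K⌉₊ := Nat.one_le_ceil_iff.2 hK
  obtain ⟨Δ, hΔ0, hΔb, p, q, hpq⟩ := exists_disc (by omega) a hirr
    ((⌈K⌉₊ * V ^ (2 * n) : ℕ) : ℤ) (by
      have : 0 < ⌈K⌉₊ * V ^ (2 * n) := by positivity
      omega) (by
      intro i
      have h1 := ha i
      have h2 : |((a i : ℤ) : ℝ)| ≤ ((⌈K⌉₊ * V ^ (2 * n) : ℕ) : ℝ) := by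
        refine h1.trans ?_
        push_cast
        apply mul_le_mul (Nat.le_ceil K) _ (by positivity) (by positivity)
        apply pow_le_pow_right₀
        · exact_mod_cast (by omega : 1 ≤ V)
        · omega
      rw [← Int.cast_abs] at h2
      exact_mod_cast h2)
  -- the number of the primes
  have hdvd : ∀ x ∈ S, x.1 ∣ Δ.natAbs := by
    intro x hx
    obtain ⟨_, _, _, h1, h2⟩ := hS x hx
    have h3 := congrArg (fun f : ℤ[X] => f.eval (x.2 : ℤ)) hpq
    simp only [eval_add, eval_mul, eval_C] at h3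
    rw [← Int.natCast_dvd, ← h3]
    exact dvd_add (Dvd.dvd.mul_right h1 _) (Dvd.dvd.mul_right h2 _)
  have hprod : ∏ r ∈ S.image Prod.fst, r ∣ Δ.natAbs := by
    apply Finset.prod_primes_dvd
    · intro r hr
      rw [Finset.mem_image] at hr
      obtain ⟨x, hx, rfl⟩ := hr
      exact (hS x hx).1.prime
    · intro r hr
      rw [Finset.mem_image] at hr
      obtain ⟨x, hx, rfl⟩ := hr
      exact hdvd x hx
  have hle : ∏ r ∈ S.image Prod.fst, r ≤ Δ.natAbs :=
    Nat.le_of_dvd (Int.natAbs_pos.2 hΔ0) hprod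
  have hge : V ^ (S.image Prod.fst).card ≤ ∏ r ∈ S.image Prod.fst, r := by
    rw [← Finset.prod_const]
    apply Finset.prod_le_prod'
    intro r hr
    rw [Finset.mem_image] at hr
    obtain ⟨x, hx, rfl⟩ := hr
    exact (hS x hx).2.1.le
  have hΔV : Δ.natAbs ≤ V ^ (4 * n ^ 2) := by
    have h1 : (Δ.natAbs : ℤ) = |Δ| := Int.natCast_natAbs Δ
    have h2 : (Δ.natAbs : ℤ) ≤ (((2 * n - 1).factorial *
        (n * (⌈K⌉₊ * V ^ (2 * n))) ^ (2 * n - 1) : ℕ) : ℤ) := by
      rw [h1]
      refine hΔb.trans ?_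
      push_cast
      exact le_refl _
    have h3 : Δ.natAbs ≤ (2 * n - 1).factorial * (n * (⌈K⌉₊ * V ^ (2 * n))) ^ (2 * n - 1) := by
      exact_mod_cast h2
    calc Δ.natAbs ≤ _ := h3
      _ ≤ V * (V ^ (2 * n + 1)) ^ (2 * n - 1) := by
          apply Nat.mul_le_mul hVf
          apply Nat.pow_le_pow_left
          calc n * (⌈K⌉₊ * V ^ (2 * n)) = (⌈K⌉₊ * n) * V ^ (2 * n) := by ring
            _ ≤ V * V ^ (2 * n) := Nat.mul_le_mul_right _ hVK
            _ = V ^ (2 * n + 1) := by ring
      _ = V ^ (1 + (2 * n + 1) * (2 * n - 1)) := by rw [← pow_mul, pow_add, pow_one]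
      _ = V ^ (4 * n ^ 2) := by
          congr 1
          obtain ⟨d, rfl⟩ := Nat.exists_eq_add_of_le hn
          have : 2 * (4 + d) - 1 = 2 * d + 7 := by omega
          rw [this]
          ring
  have hcard1 : (S.image Prod.fst).card ≤ 4 * n ^ 2 := by
    have := (hge.trans hle).trans hΔV
    exact (Nat.pow_le_pow_iff_right (by omega)).1 this
  have hcard2 : S.card ≤ n * (S.image Prod.fst).card := by
    apply Finset.card_le_mul_card_image
    intro r hr
    rw [Finset.mem_image] at hr
    obtain ⟨x0, hx0, rfl⟩ := hr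
    have h1 : ((S.filter (fun x => x.1 = x0.1)).image Prod.snd).card ≤ n := by
      apply roots_le (hS x0 hx0).1 (pol n a) (pol_monic (by omega) a)
        (pol_natDegree (by omega) a)
      intro m hm
      rw [Finset.mem_image] at hm
      obtain ⟨x, hx, rfl⟩ := hm
      rw [Finset.mem_filter] at hx
      obtain ⟨_, _, h3, h4, _⟩ := hS x hx.1
      rw [hx.2] at h3 h4
      exact ⟨h3, h4⟩
    rwa [Finset.card_image_of_injOn] at h1
    intro x hx y hy hxy
    rw [Finset.mem_coe, Finset.mem_filter] at hx hy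
    exact Prod.ext (hx.2.trans hy.2.symm) hxy
  calc S.card ≤ n * (S.image Prod.fst).card := hcard2
    _ ≤ n * (4 * n ^ 2) := Nat.mul_le_mul_left _ hcard1
    _ = 4 * n ^ 3 := by ring

end Pool.Agent.D0H87.SF.FAM
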