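import Mathlib
import Pool.Agent.D0H41.SF.Stm
import Pool.Agent.D0H87.SF.FAMa
import Pool.Agent.D0H87.SF.FAMb

/-!
# Project SF, module FAM: the family is large
-/

set_option autoImplicit false

open Polynomial

namespace Pool.Agent.D0H87.SF.FAM

open Pool.Agent.D0H41.SF

theorem expo (n k : ℕ) (hk : 2 ≤ k) (hn : 2 * k ≤ n) :
    (k * (n + 1 - k) - 1) + k * (n + 1 - k) +
      ((n + 1 - 2 * k) * (n + 2 - 2 * k) - 2 + (k - 2) * (n + 1 - k)) =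
    (n ^ 2 + n - 4 - k * (n + 1 - k)) + 1 := by
  obtain ⟨k', rfl⟩ := Nat.exists_eq_add_of_le hk
  obtain ⟨d, rfl⟩ := Nat.exists_eq_add_of_le hn
  have h1 : 2 * (2 + k') + d + 1 - (2 + k') = k' + d + 3 := by omega
  have h2 : 2 * (2 + k') + d + 1 - 2 * (2 + k') = d + 1 := by omega
  have h3 : 2 * (2 + k') + d + 2 - 2 * (2 + k') = d + 2 := by omega
  have h4 : 2 + k' - 2 = k' := by omega
  rw [h1, h2, h3, h4]
  have h5 : (2 * (2 + k') + d) ^ 2 + (2 * (2 + k') + d) =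
      (3 * k' ^ 2 + d ^ 2 + 3 * (k' * d) + 13 * k' + 7 * d + 10) +
        (4 + (2 + k') * (k' + d + 3)) := by ring
  have h6 : (d + 1) * (d + 2) = d ^ 2 + 3 * d + 2 := by ring
  have h7 : (2 + k') * (k' + d + 3) = k' ^ 2 + k' * d + 5 * k' + 2 * d + 6 := by ring
  have h8 : k' * (k' + d + 3) = k' ^ 2 + k' * d + 3 * k' := by ring
  rw [h5, h6, h7, h8]
  omega

theorem t_FAM (hGM : S_GM) (hCO : S_CO) (hPR : S_PR) : S_FAM := by
  classical
  intro n k q hk hn hq a0 hirr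
  obtain ⟨K, hK, V₂, hGM'⟩ := hGM n k hk hn
  obtain ⟨C₁, hC₁, hCO'⟩ := hCO n k hk hn K hK
  obtain ⟨e, he⟩ : ∃ e, e = k * (n + 1 - k) := ⟨_, rfl⟩
  have he1 : 1 ≤ e := by
    rw [he]
    have : 1 ≤ n + 1 - k := by omega
    nlinarith
  obtain ⟨V₃, hPR'⟩ := hPR e he1
  obtain ⟨M, hMdef⟩ : ∃ M : ℝ, M = ∑ i, |((a0 i : ℤ) : ℝ)| := ⟨_, rfl⟩
  have hM0 : 0 ≤ M := by
    rw [hMdef]
    exact Finset.sum_nonneg fun _ _ => abs_nonneg _
  have hM : ∀ i, |((a0 i : ℤ) : ℝ)| ≤ M := by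
    intro i
    rw [hMdef]
    exact Finset.single_le_sum (f := fun i => |((a0 i : ℤ) : ℝ)|)
      (fun _ _ => abs_nonneg _) (Finset.mem_univ i)
  have hq0 : (0 : ℝ) < q := by exact_mod_cast hq
  have hCpos : 0 < M + q * (C₁ + 1) := by positivity
  obtain ⟨V₁, hmult⟩ := mult (by omega : 4 ≤ n) (M + q * (C₁ + 1)) hCpos
  refine ⟨M + q * (C₁ + 1), hCpos, V₁ + V₂ + V₃ + q + 512 * n ^ 3 + 2, ?_⟩
  intro V hV
  rw [← he]
  have hV1 : 1 ≤ V := by omega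
  have hVe : V ≤ V ^ e := Nat.le_self_pow (by omega) _
  set Pr := (Finset.Ioc (V ^ e) (4 * V ^ e)).filter Nat.Prime with hPr
  have hPrc : V ^ (e - 1) ≤ Pr.card := hPR' V (by omega)
  have hPr' : ∀ r, r ∈ Pr → r.Prime ∧ V ^ e < r ∧ r ≤ 4 * V ^ e := by
    intro r hr
    rw [hPr, Finset.mem_filter, Finset.mem_Ioc] at hr
    exact ⟨hr.2, hr.1.1, hr.1.2⟩
  have hG : ∀ r : ℕ, r ∈ Pr → ∃ G : Finset ℕ, G ⊆ Finset.range r ∧ r ≤ 2 * G.card ∧
      ∀ m ∈ G, Short k n V r K (m : ℤ) := by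
    intro r hr
    obtain ⟨h1, h2, h3⟩ := hPr' r hr
    exact hGM' V r (by omega) h1 (by rw [← he]; exact h2) (by rw [← he]; exact h3)
  choose! G hG1 hG2 hG3 using hG
  set Q : Finset (ℕ × ℕ) := (Pr.sigma G).image (fun x => (x.1, x.2)) with hQdef
  have hQ : ∀ x : ℕ × ℕ, x ∈ Q → x.1 ∈ Pr ∧ x.2 ∈ G x.1 := by
    intro x hx
    rw [hQdef, Finset.mem_image] at hx
    obtain ⟨y, hy, rfl⟩ := hx
    exact Finset.mem_sigma.1 hy
  have hQc : V ^ (e - 1) * V ^ e ≤ 2 * Q.card := by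
    rw [hQdef, Finset.card_image_of_injective, Finset.card_sigma, Finset.mul_sum]
    · calc V ^ (e - 1) * V ^ e ≤ Pr.card * V ^ e := Nat.mul_le_mul_right _ hPrc
        _ = ∑ _r ∈ Pr, V ^ e := by rw [Finset.sum_const, smul_eq_mul]
        _ ≤ ∑ r ∈ Pr, 2 * (G r).card := by
            apply Finset.sum_le_sum
            intro r hr
            exact (hPr' r hr).2.1.le.trans (hG2 r hr)
    · rintro ⟨a, b⟩ ⟨c, d⟩ h
      simp only [Prod.mk.injEq] at h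
      obtain ⟨rfl, rfl⟩ := h
      rfl
  have hA : ∀ x : ℕ × ℕ, x ∈ Q → ∃ A : Finset (Fin (n - 1) → ℤ),
      V ^ ((n + 1 - 2 * k) * (n + 2 - 2 * k) - 2 + (k - 2) * (n + 1 - k)) ≤ 64 * A.card ∧
      ∀ a ∈ A, (∀ i, |((a i : ℤ) : ℝ)| ≤ (M + q * (C₁ + 1)) * (V : ℝ) ^ (2 * (n - (i : ℕ)))) ∧
        (∀ i, (q : ℤ) ∣ a i - a0 i) ∧ (x.1 : ℤ) ^ 2 ∣ (pol n a).eval (x.2 : ℤ) ∧
        (x.1 : ℤ) ∣ (derivative (pol n a)).eval (x.2 : ℤ) := by
    intro x hx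
    obtain ⟨h1, h2⟩ := hQ x hx
    obtain ⟨h3, h4, h5⟩ := hPr' x.1 h1
    apply fiber hk hn hq a0 C₁ M hC₁ hM0 hM V x.1 (x.2 : ℤ) hV1
    · rw [Nat.isCoprime_iff_coprime]
      apply Nat.Coprime.symm
      rw [h3.coprime_iff_not_dvd]
      intro hdvd
      have := Nat.le_of_dvd (by omega) hdvd
      omega
    · exact hCO' V x.1 (x.2 : ℤ) hV1 h3.one_lt.le (by rw [← he]; exact h5) (hG3 x.1 h1 x.2 h2)
  choose! A hA1 hA2 using hA
  have hmem : ∀ a, a ∈ Q.biUnion A → ∃ x ∈ Q, a ∈ A x := by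
    intro a ha
    exact Finset.mem_biUnion.1 ha
  have hdc : ∑ x ∈ Q, (A x).card ≤ (Q.biUnion A).card * (4 * n ^ 3) := by
    have h1 := Finset.sum_card_bipartiteAbove_eq_sum_card_bipartiteBelow (s := Q)
      (t := Q.biUnion A) (fun x a => a ∈ A x)
    have h2 : ∀ x ∈ Q, (Finset.bipartiteAbove (fun x a => a ∈ A x) (Q.biUnion A) x).card =
        (A x).card := by
      intro x hx
      congr 1
      ext a
      rw [Finset.bipartiteAbove, Finset.mem_filter]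
      exact ⟨fun h => h.2, fun h => ⟨Finset.mem_biUnion.2 ⟨x, hx, h⟩, h⟩⟩
    rw [← Finset.sum_congr rfl h2, h1]
    rw [← smul_eq_mul]
    apply Finset.sum_le_card_nsmul
    intro a ha
    obtain ⟨x0, hx0, hax0⟩ := hmem a ha
    obtain ⟨g1, g2, _, _⟩ := hA2 x0 hx0 a hax0
    apply hmult V (by omega) a (hirr a g2) g1
    intro x hx
    rw [Finset.bipartiteBelow, Finset.mem_filter] at hx
    obtain ⟨h3, h4⟩ := hx
    obtain ⟨h5, h6⟩ := hQ x h3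
    obtain ⟨h7, h8, h9⟩ := hPr' x.1 h5
    obtain ⟨_, _, g3, g4⟩ := hA2 x h3 a h4
    refine ⟨h7, by omega, Finset.mem_range.1 (hG1 x.1 h5 h6), ?_, g4⟩
    exact (Dvd.intro_left (x.1 : ℤ) (by ring)).trans g3
  refine ⟨Q.biUnion A, ?_, ?_⟩
  · have h1 : V ^ (e - 1) * V ^ e *
        V ^ ((n + 1 - 2 * k) * (n + 2 - 2 * k) - 2 + (k - 2) * (n + 1 - k)) ≤
        128 * ∑ x ∈ Q, (A x).card := by
      calc _ ≤ 2 * Q.card *
            V ^ ((n + 1 - 2 * k) * (n + 2 - 2 * k) - 2 + (k - 2) * (n + 1 - k)) :=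
            Nat.mul_le_mul_right _ hQc
        _ = 2 * ∑ _x ∈ Q,
            V ^ ((n + 1 - 2 * k) * (n + 2 - 2 * k) - 2 + (k - 2) * (n + 1 - k)) := by
            rw [Finset.sum_const, smul_eq_mul, mul_assoc]
        _ ≤ 2 * ∑ x ∈ Q, 64 * (A x).card :=
            Nat.mul_le_mul_left _ (Finset.sum_le_sum fun x hx => hA1 x hx)
        _ = 128 * ∑ x ∈ Q, (A x).card := by
            rw [← Finset.mul_sum, ← mul_assoc]
            norm_num
    have h2 := expo n k hk hn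
    rw [← he] at h2
    rw [← pow_add, ← pow_add, h2, pow_succ] at h1
    have h3 : V ^ (n ^ 2 + n - 4 - e) * V ≤ (Q.biUnion A).card * V := by
      calc _ ≤ _ := h1
        _ ≤ 128 * ((Q.biUnion A).card * (4 * n ^ 3)) := Nat.mul_le_mul_left _ hdc
        _ = (Q.biUnion A).card * (512 * n ^ 3) := by ring
        _ ≤ (Q.biUnion A).card * V := Nat.mul_le_mul_left _ (by omega)
    exact Nat.le_of_mul_le_mul_right h3 (by omega)
  · intro a ha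
    obtain ⟨x, hx, hax⟩ := hmem a ha
    obtain ⟨g1, g2, g3, g4⟩ := hA2 x hx a hax
    refine ⟨g1, g2, x.1, x.2, ?_, g3, g4⟩
    rw [← he]
    exact (hPr' x.1 (hQ x hx).1).2.1

end Pool.Agent.D0H87.SF.FAM
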