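import Mathlib
import Pool.Agent.D0H41.SF.Stm

/-!
# Project SF, module PR: many primes in `(V^e, 4 V^e]`
-/

set_option autoImplicit false

namespace Pool.Agent.D0H87.SF.PR

open Pool.Agent.D0H41.SF Chebyshev

theorem theta_sub (R : ℕ) (hR : 1 ≤ R) : theta ((4 * R : ℕ) : ℝ) - theta (R : ℝ) ≤
    (((Finset.Ioc R (4 * R)).filter Nat.Prime).card : ℝ) * Real.log ((4 * R : ℕ) : ℝ) := by
  rw [theta, theta, Nat.floor_natCast, Nat.floor_natCast, Finset.sum_filter, Finset.sum_filter,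
    ← Finset.sum_Ioc_consecutive (fun p => if p.Prime then Real.log (p : ℝ) else 0)
      (Nat.zero_le R) (by omega : R ≤ 4 * R), add_sub_cancel_left, ← Finset.sum_filter,
    ← nsmul_eq_mul]
  apply Finset.sum_le_card_nsmul
  intro p hp
  rw [Finset.mem_filter, Finset.mem_Ioc] at hp
  apply Real.log_le_log
  · have := hp.2.pos
    exact_mod_cast this
  · exact_mod_cast hp.1.2

theorem t_PR : S_PR := by
  intro e he
  have he0 : (0 : ℝ) < e := by exact_mod_cast he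
  have h1 : ∀ᶠ x : ℝ in Filter.atTop, Real.log x ≤ (1 / 80) * Real.sqrt x := by
    have := (isLittleO_log_rpow_atTop (r := 1 / 2) (by norm_num)).bound
      (show (0 : ℝ) < 1 / 80 by norm_num)
    filter_upwards [this, Filter.eventually_ge_atTop 1] with x hx hx1
    rw [Real.norm_eq_abs, Real.norm_eq_abs, abs_of_nonneg (Real.rpow_nonneg (by linarith) _),
      ← Real.sqrt_eq_rpow] at hx
    exact (le_abs_self _).trans hx
  have h2 : ∀ᶠ x : ℝ in Filter.atTop, Real.log x ≤ (1 / (2 * e)) * x := by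
    have := Real.isLittleO_log_id_atTop.bound (show (0 : ℝ) < 1 / (2 * e) by positivity)
    filter_upwards [this, Filter.eventually_ge_atTop 1] with x hx hx1
    rw [Real.norm_eq_abs, id, Real.norm_eq_abs, abs_of_nonneg (by linarith : (0 : ℝ) ≤ x)] at hx
    exact (le_abs_self _).trans hx
  obtain ⟨x1, hx1⟩ := Filter.eventually_atTop.1 h1
  obtain ⟨x2, hx2⟩ := Filter.eventually_atTop.1 h2
  refine ⟨⌈x1⌉₊ + ⌈x2⌉₊ + 4, fun V hV => ?_⟩
  have hV1 : x1 ≤ V := (Nat.le_ceil x1).trans (by exact_mod_cast (by omega : ⌈x1⌉₊ ≤ V))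
  have hV2 : x2 ≤ V := (Nat.le_ceil x2).trans (by exact_mod_cast (by omega : ⌈x2⌉₊ ≤ V))
  have hV4 : 4 ≤ V := by omega
  have hV4' : (4 : ℝ) ≤ V := by exact_mod_cast hV4
  set R := V ^ e with hR
  have hRV : V ≤ R := by
    rw [hR]
    exact Nat.le_self_pow (by omega) _
  have hRV' : (V : ℝ) ≤ R := by exact_mod_cast hRV
  have hR0 : (0 : ℝ) < R := by linarith
  have hub := theta_sub R (by omega)
  have hlo := theta_ge (4 * R)
  have hup := theta_le_log4_mul_x (x := (R : ℝ)) hR0.le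
  have hlog4 : Real.log 4 = 2 * Real.log 2 := by
    rw [show (4 : ℝ) = 2 ^ 2 by norm_num, Real.log_pow]
    push_cast
    ring
  have hlog2 : (0.69 : ℝ) < Real.log 2 := by
    have := Real.log_two_gt_d9
    linarith
  have ha : Real.log ((4 * R : ℕ) : ℝ) ≤ (1 / 80) * Real.sqrt ((4 * R : ℕ) : ℝ) := by
    apply hx1
    push_cast
    linarith
  have hb : Real.log (((4 * R : ℕ) : ℝ) + 1) ≤ (1 / 80) * Real.sqrt (((4 * R : ℕ) : ℝ) + 1) := by
    apply hx1
    push_cast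
    linarith
  have hb' : Real.sqrt (((4 * R : ℕ) : ℝ) + 1) ≤ ((4 * R : ℕ) : ℝ) + 1 := by
    rw [Real.sqrt_le_left (by positivity)]
    have : (1 : ℝ) ≤ ((4 * R : ℕ) : ℝ) + 1 := by
      have : (0 : ℝ) ≤ ((4 * R : ℕ) : ℝ) := Nat.cast_nonneg _
      linarith
    nlinarith
  have hsq : Real.sqrt ((4 * R : ℕ) : ℝ) * Real.sqrt ((4 * R : ℕ) : ℝ) = ((4 * R : ℕ) : ℝ) :=
    Real.mul_self_sqrt (Nat.cast_nonneg _)
  have hs0 : 0 ≤ Real.sqrt ((4 * R : ℕ) : ℝ) := Real.sqrt_nonneg _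
  have hc : 2 * Real.sqrt ((4 * R : ℕ) : ℝ) * Real.log ((4 * R : ℕ) : ℝ) ≤
      (1 / 40) * ((4 * R : ℕ) : ℝ) := by
    calc 2 * Real.sqrt ((4 * R : ℕ) : ℝ) * Real.log ((4 * R : ℕ) : ℝ)
        ≤ 2 * Real.sqrt ((4 * R : ℕ) : ℝ) * ((1 / 80) * Real.sqrt ((4 * R : ℕ) : ℝ)) := by
          apply mul_le_mul_of_nonneg_left ha
          positivity
      _ = (1 / 40) * (Real.sqrt ((4 * R : ℕ) : ℝ) * Real.sqrt ((4 * R : ℕ) : ℝ)) := by ring
      _ = (1 / 40) * ((4 * R : ℕ) : ℝ) := by rw [hsq]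
  have hmain : (R : ℝ) ≤ theta ((4 * R : ℕ) : ℝ) - theta (R : ℝ) := by
    rw [hlog4] at hup
    push_cast at *
    nlinarith
  have hlogR : Real.log ((4 * R : ℕ) : ℝ) ≤ V := by
    have h3 := hx2 V hV2
    rw [hR]
    push_cast
    rw [Real.log_mul (by norm_num) (by positivity), Real.log_pow, hlog4]
    have h4 : (e : ℝ) * Real.log V ≤ V / 2 := by
      calc (e : ℝ) * Real.log V ≤ e * ((1 / (2 * e)) * V) :=
            mul_le_mul_of_nonneg_left h3 he0.le
        _ = V / 2 := by field_simp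
    have h5 : Real.log 2 < 0.7 := by
      have := Real.log_two_lt_d9
      linarith
    linarith
  have hcardV : (R : ℝ) ≤ (((Finset.Ioc R (4 * R)).filter Nat.Prime).card : ℝ) * V :=
    (hmain.trans hub).trans (mul_le_mul_of_nonneg_left hlogR (Nat.cast_nonneg _))
  have hRe : R = V ^ (e - 1) * V := by
    rw [hR, ← pow_succ]
    congr 1
    omega
  have : V ^ (e - 1) * V ≤ ((Finset.Ioc R (4 * R)).filter Nat.Prime).card * V := by
    rw [← hRe]
    exact_mod_cast hcardV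
  exact Nat.le_of_mul_le_mul_right this (by omega)

end Pool.Agent.D0H87.SF.PR
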